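import Pool.Agent.Lib.Pec6744.Count

/-!
# The upper bound `m + 1` for `k = 2 m + 1`
-/

namespace Pool.Agent.Lib.Pec6744

open Finset Classical

lemma orient_affine (u v x y : E2) (s t : ℝ) (h : s + t = 1) :
    orient u v (s • x + t • y) = s * orient u v x + t * orient u v y := by
  have : s = 1 - t := by linarith
  subst this
  simp only [orient, PiLp.add_apply, PiLp.smul_apply, smul_eq_mul]
  ring

lemma convex_lex_gen (g h : E2 → ℝ) (hg : ∀ x y s t, s + t = 1 → g (s • x + t • y) = s * g x + t * g y)
    (hh : ∀ x y s t, s + t = 1 → h (s • x + t • y) = s * h x + t * h y) (a b : ℝ) :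
    Convex ℝ {q : E2 | g q < a ∨ (g q = a ∧ h q < b)} := by
  intro x hx y hy s t hs ht hst
  simp only [Set.mem_ofPred_eq] at hx hy ⊢
  rw [hg x y s t hst, hh x y s t hst]
  rcases hs.eq_or_lt with h0 | h0
  · have : t = 1 := by linarith
    rw [← h0, this]
    simpa using hy
  · rcases ht.eq_or_lt with h1 | h1
    · have : s = 1 := by linarith
      rw [← h1, this]
      simpa using hx
    · have ha : a = s * a + t * a := by rw [← add_mul, hst, one_mul]
      have hb : b = s * b + t * b := by rw [← add_mul, hst, one_mul]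
      rcases hx with hx | ⟨hx, hx'⟩ <;> rcases hy with hy | ⟨hy, hy'⟩
      · left
        rw [ha]
        exact add_lt_add (mul_lt_mul_of_pos_left hx h0) (mul_lt_mul_of_pos_left hy h1)
      · left
        rw [ha, hy]
        exact add_lt_add_of_lt_of_le (mul_lt_mul_of_pos_left hx h0) le_rfl
      · left
        rw [ha, hx]
        exact add_lt_add_of_le_of_lt le_rfl (mul_lt_mul_of_pos_left hy h1)
      · right
        rw [hx, hy]
        refine ⟨ha.symm, ?_⟩
        rw [hb]
        exact add_lt_add (mul_lt_mul_of_pos_left hx' h0) (mul_lt_mul_of_pos_left hy' h1)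

/-- some hull vertex maximises `orient u v` -/
lemma exists_ext_max {T : Finset E2} (hT : T.Nonempty) {u v : E2} (huv : u ≠ v) :
    ∃ p ∈ extPts T, ∀ q ∈ T, orient u v q ≤ orient u v p := by
  obtain ⟨p1, hp1, hmax1⟩ := T.exists_max_image (orient u v) hT
  set h : E2 → ℝ := fun q => q 0 * (v 0 - u 0) + q 1 * (v 1 - u 1) with hh
  set T' := T.filter (fun q => orient u v q = orient u v p1) with hT'
  have hne : T'.Nonempty := ⟨p1, Finset.mem_filter.2 ⟨hp1, rfl⟩⟩
  obtain ⟨p, hp, hmax⟩ := T'.exists_max_image h hne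
  obtain ⟨hpT, hpp⟩ := Finset.mem_filter.1 hp
  refine ⟨p, ⟨hpT, fun hmem => ?_⟩, fun q hq => by rw [hpp]; exact hmax1 q hq⟩
  have hsub : ((T : Set E2) \ {p}) ⊆ {q : E2 | orient u v q < orient u v p ∨
      (orient u v q = orient u v p ∧ h q < h p)} := by
    intro q hq
    obtain ⟨hqT, hqp⟩ := hq
    rcases (hmax1 q hqT).lt_or_eq with h1 | h1
    · left; rw [hpp]; exact h1
    · right
      refine ⟨by rw [hpp]; exact h1, ?_⟩
      have h2 := hmax q (Finset.mem_filter.2 ⟨hqT, h1⟩)
      rcases h2.lt_or_eq with h3 | h3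
      · exact h3
      · exfalso
        apply hqp
        have e1 : orient u v q = orient u v p := by rw [hpp]; exact h1
        have e2 : (v 0 - u 0) * (q 1 - p 1) - (v 1 - u 1) * (q 0 - p 0) = 0 := by
          unfold orient at e1; linarith
        have e3 : (q 0 - p 0) * (v 0 - u 0) + (q 1 - p 1) * (v 1 - u 1) = 0 := by
          simp only [hh] at h3; linarith
        have hn : 0 < (v 0 - u 0)^2 + (v 1 - u 1)^2 := by
          by_contra hcon
          have hcon := not_lt.1 hcon
          apply huv
          have a1 : v 0 - u 0 = 0 := by nlinarith [sq_nonneg (v 0 - u 0), sq_nonneg (v 1 - u 1)]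
          have a2 : v 1 - u 1 = 0 := by nlinarith [sq_nonneg (v 0 - u 0), sq_nonneg (v 1 - u 1)]
          ext i
          fin_cases i
          · show u 0 = v 0
            linarith
          · show u 1 = v 1
            linarith
        have f1 : ((v 0 - u 0)^2 + (v 1 - u 1)^2) * (q 0 - p 0) = 0 := by linear_combination (v 0 - u 0) * e3 - (v 1 - u 1) * e2
        have f2 : ((v 0 - u 0)^2 + (v 1 - u 1)^2) * (q 1 - p 1) = 0 := by linear_combination (v 1 - u 1) * e3 + (v 0 - u 0) * e2
        have g1 := (mul_eq_zero.1 f1).resolve_left hn.ne'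
        have g2 := (mul_eq_zero.1 f2).resolve_left hn.ne'
        show q = p
        ext i
        fin_cases i
        · show q 0 = p 0
          linarith
        · show q 1 = p 1
          linarith
  have hconv := convex_lex_gen (orient u v) h (fun x y s t hst => orient_affine u v x y s t hst)
    (fun x y s t hst => by
      simp only [hh, PiLp.add_apply, PiLp.smul_apply, smul_eq_mul]; ring) (orient u v p) (h p)
  have := convexHull_min hsub hconv hmem
  simp only [Set.mem_ofPred_eq, lt_irrefl, and_false, or_false] at this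

/-- From `m + 1` independent edges with few points on their inner sides we get a large subset
with `2 m + 1` hull vertices. -/
theorem of_indep {P : Finset E2} {m n D : ℕ} (C : Finset (E2 × E2)) (hCc : C.card = m + 1)
    (hCP : ∀ e ∈ C, e.1 ∈ P ∧ e.2 ∈ P ∧ e.1 ≠ e.2)
    (hCi : ∀ e ∈ C, ∀ f ∈ C, e ≠ f → Indep e f)
    (hD : ∀ e ∈ C, (P.filter (fun p => 0 ≤ orient e.1 e.2 p)).card ≤ D)
    (hn : 2 * m + 1 ≤ n) (hN : n + m * D ≤ P.card) :
    ∃ T : Finset E2, T ⊆ P ∧ T.card = n ∧ 2 * m + 1 ≤ (extPts T).ncard := by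
  obtain ⟨o, ho⟩ : C.Nonempty := by rw [← Finset.card_pos]; omega
  set C' := C.erase o with hC'
  have hC'c : C'.card = m := by rw [hC', Finset.card_erase_of_mem ho, hCc]; rfl
  have hC'C : C' ⊆ C := Finset.erase_subset _ _
  set U : Finset E2 := C'.image Prod.fst ∪ C'.image Prod.snd with hU
  -- negativity
  have hneg : ∀ e ∈ C, ∀ f ∈ C, e ≠ f → orient e.1 e.2 f.1 < 0 ∧ orient e.1 e.2 f.2 < 0 := by
    intro e he f hf hef
    have := (hCi e he f hf hef).2
    unfold Meets at this
    push Not at this
    exact this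
  have hUcard : U.card = 2 * m := by
    rw [hU, Finset.card_union_of_disjoint, Finset.card_image_of_injOn, Finset.card_image_of_injOn, hC'c]
    · ring
    · intro e he f hf hef
      by_contra hne
      have := (hneg e (hC'C he) f (hC'C hf) hne).2
      rw [← hef, orient_self_right] at this
      exact lt_irrefl _ this
    · intro e he f hf hef
      by_contra hne
      have := (hneg e (hC'C he) f (hC'C hf) hne).1
      rw [← hef, orient_self_left] at this
      exact lt_irrefl _ this
    · rw [Finset.disjoint_left]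
      intro p hp hp'
      obtain ⟨e, he, rfl⟩ := Finset.mem_image.1 hp
      obtain ⟨f, hf, hef⟩ := Finset.mem_image.1 hp'
      by_cases h : e = f
      · subst h
        exact (hCP e (hC'C he)).2.2 hef.symm
      · have := (hneg e (hC'C he) f (hC'C hf) h).2
        rw [hef, orient_self_left] at this
        exact lt_irrefl _ this
  have hUmem : ∀ p ∈ U, ∃ e ∈ C', p = e.1 ∨ p = e.2 := by
    intro p hp
    rcases Finset.mem_union.1 hp with h | h
    · obtain ⟨e, he, rfl⟩ := Finset.mem_image.1 h; exact ⟨e, he, Or.inl rfl⟩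
    · obtain ⟨e, he, rfl⟩ := Finset.mem_image.1 h; exact ⟨e, he, Or.inr rfl⟩
  -- the large set
  set W : Finset E2 := P.filter (fun p => ∀ e ∈ C', orient e.1 e.2 p < 0) with hW
  have hWcard : P.card ≤ W.card + m * D := by
    have hsub : P ⊆ W ∪ C'.biUnion (fun e => P.filter (fun p => 0 ≤ orient e.1 e.2 p)) := by
      intro p hp
      by_cases h : ∀ e ∈ C', orient e.1 e.2 p < 0
      · exact Finset.mem_union_left _ (Finset.mem_filter.2 ⟨hp, h⟩)
      · push Not at h
        obtain ⟨e, he, he'⟩ := h
        exact Finset.mem_union_right _ (Finset.mem_biUnion.2 ⟨e, he, Finset.mem_filter.2 ⟨hp, he'⟩⟩)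
    have h1 := (Finset.card_le_card hsub).trans (Finset.card_union_le _ _)
    have h2 : (C'.biUnion (fun e => P.filter (fun p => 0 ≤ orient e.1 e.2 p))).card ≤ m * D := by
      rw [← hC'c]
      apply Finset.card_biUnion_le_card_mul
      intro e he
      exact hD e (hC'C he)
    omega
  have hoW : o.1 ∈ W := by
    refine Finset.mem_filter.2 ⟨(hCP o ho).1, fun e he => ?_⟩
    exact (hneg e (hC'C he) o ho (Finset.ne_of_mem_erase he)).1
  have hoU : o.1 ∉ U := by
    intro h
    obtain ⟨e, he, h1⟩ := hUmem _ h
    have h2 := (hneg e (hC'C he) o ho (Finset.ne_of_mem_erase he)).1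
    rcases h1 with h1 | h1
    · rw [h1, orient_self_left] at h2; exact lt_irrefl _ h2
    · rw [h1, orient_self_right] at h2; exact lt_irrefl _ h2
  have hVc : (insert o.1 U).card = 2 * m + 1 := by
    rw [Finset.card_insert_of_notMem hoU, hUcard]
  have hVsub : insert o.1 U ⊆ W ∪ U :=
    Finset.insert_subset (Finset.mem_union_left _ hoW) Finset.subset_union_right
  obtain ⟨T, hVT, hTW, hTn⟩ := Finset.exists_subsuperset_card_eq hVsub (by omega)
    (show n ≤ (W ∪ U).card by
      have := Finset.card_le_card (Finset.subset_union_left (s₁ := W) (s₂ := U))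
      omega)
  have hUP : U ⊆ P := by
    intro p hp
    obtain ⟨e, he, h1⟩ := hUmem p hp
    rcases h1 with rfl | rfl
    · exact (hCP e (hC'C he)).1
    · exact (hCP e (hC'C he)).2.1
  have hTP : T ⊆ P := hTW.trans (Finset.union_subset (Finset.filter_subset _ _) hUP)
  have hUT : U ⊆ T := (Finset.subset_insert _ _).trans hVT
  refine ⟨T, hTP, hTn, ?_⟩
  have hedge : ∀ e ∈ C', ∀ p ∈ T, p ≠ e.2 → p ≠ e.1 → 0 < orient e.2 e.1 p := by
    intro e he p hp h2 h1
    rw [orient_swap]
    have : orient e.1 e.2 p < 0 := by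
      rcases Finset.mem_union.1 (hTW hp) with h | h
      · exact (Finset.mem_filter.1 h).2 e he
      · obtain ⟨f, hf, h3⟩ := hUmem p h
        have hne : e ≠ f := by
          rintro rfl
          rcases h3 with h3 | h3
          · exact h1 h3
          · exact h2 h3
        rcases h3 with rfl | rfl
        · exact (hneg e (hC'C he) f (hC'C hf) hne).1
        · exact (hneg e (hC'C he) f (hC'C hf) hne).2
    linarith
  have hUext : (U : Set E2) ⊆ extPts T := by
    intro p hp
    obtain ⟨e, he, h1⟩ := hUmem p hp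
    have hne := (hCP e (hC'C he)).2.2
    rcases h1 with rfl | rfl
    · exact ext_of_edge' (hUT hp) hne.symm (hedge e he)
    · exact ext_of_edge (hUT hp) hne.symm (hedge e he)
  obtain ⟨q, hq, hqmax⟩ := exists_ext_max (T := T) ⟨o.1, hVT (Finset.mem_insert_self _ _)⟩
    (hCP o ho).2.2
  have hqU : q ∉ U := by
    intro h
    obtain ⟨e, he, h1⟩ := hUmem q h
    have h2 := hqmax o.1 (hVT (Finset.mem_insert_self _ _))
    rw [orient_self_left] at h2
    have h3 := hneg o ho e (hC'C he) (Finset.ne_of_mem_erase he).symm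
    rcases h1 with rfl | rfl
    · linarith [h3.1]
    · linarith [h3.2]
  have hsub : ((insert q U : Finset E2) : Set E2) ⊆ extPts T := by
    intro p hp
    rw [Finset.coe_insert] at hp
    rcases hp with rfl | hp
    · exact hq
    · exact hUext hp
  have := Set.ncard_le_ncard hsub (extPts_finite T)
  rw [Set.ncard_coe_finset, Finset.card_insert_of_notMem hqU, hUcard] at this
  exact this

end Pool.Agent.Lib.Pec6744
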