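import Pool.Agent.Lib.Pec6744.Cups

/-!
# Depth lemma: most edges of long convex chains have few points on their inner side
-/

namespace Pool.Agent.Lib.Pec6744

/-- the points of a finite set which are vertices of its convex hull -/
def extPts (T : Finset E2) : Set E2 :=
  {p : E2 | p ∈ T ∧ p ∉ convexHull ℝ ((T : Set E2) \ {p})}

lemma orient_cycl (a b c : E2) : orient a b c = orient b c a := by unfold orient; ring

lemma orient_swap (a b c : E2) : orient a b c = - orient b a c := by unfold orient; ring

/-- a lexicographic half plane is convex -/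
lemma convex_lex (a b : E2) : Convex ℝ {q : E2 | 0 < orient a b q ∨
    (orient a b q = 0 ∧ 0 < (q 0 - a 0) * (b 0 - a 0) + (q 1 - a 1) * (b 1 - a 1))} := by
  intro x hx y hy s t hs ht hst
  have e1 : orient a b (s • x + t • y) = s * orient a b x + t * orient a b y := by
    have : s = 1 - t := by linarith
    subst this
    simp only [orient, PiLp.add_apply, PiLp.smul_apply, smul_eq_mul]
    ring
  have e2 : ((s • x + t • y) 0 - a 0) * (b 0 - a 0) + ((s • x + t • y) 1 - a 1) * (b 1 - a 1)
      = s * ((x 0 - a 0) * (b 0 - a 0) + (x 1 - a 1) * (b 1 - a 1)) +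
        t * ((y 0 - a 0) * (b 0 - a 0) + (y 1 - a 1) * (b 1 - a 1)) := by
    have : s = 1 - t := by linarith
    subst this
    simp only [PiLp.add_apply, PiLp.smul_apply, smul_eq_mul]
    ring
  simp only [Set.mem_setOf_eq] at hx hy ⊢
  rw [e1, e2]
  rcases hs.eq_or_lt with h0 | h0
  · have : t = 1 := by linarith
    rw [← h0, this]
    simpa using hy
  · rcases ht.eq_or_lt with h1 | h1
    · have : s = 1 := by linarith
      rw [← h1, this]
      simpa using hx
    · rcases hx with hx | ⟨hx, hx'⟩ <;> rcases hy with hy | ⟨hy, hy'⟩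
      · left; positivity
      · left; rw [hy]; simpa using mul_pos h0 hx
      · left; rw [hx]; simpa using mul_pos h1 hy
      · right
        rw [hx, hy]
        refine ⟨by ring, by positivity⟩

/-- endpoints of a supporting edge are hull vertices -/
lemma ext_of_edge {T : Finset E2} {a b : E2} (ha : a ∈ T) (hab : a ≠ b)
    (h : ∀ p ∈ T, p ≠ a → p ≠ b → 0 < orient a b p) : a ∈ extPts T := by
  refine ⟨ha, fun hmem => ?_⟩
  have hsub : ((T : Set E2) \ {a}) ⊆ {q : E2 | 0 < orient a b q ∨
    (orient a b q = 0 ∧ 0 < (q 0 - a 0) * (b 0 - a 0) + (q 1 - a 1) * (b 1 - a 1))} := by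
    intro q hq
    by_cases hqb : q = b
    · right
      subst hqb
      refine ⟨orient_self_right a q, ?_⟩
      by_contra hcon
      have hcon := not_lt.1 hcon
      apply hab
      have h1 : q 0 - a 0 = 0 := by nlinarith [sq_nonneg (q 0 - a 0), sq_nonneg (q 1 - a 1)]
      have h2 : q 1 - a 1 = 0 := by nlinarith [sq_nonneg (q 0 - a 0), sq_nonneg (q 1 - a 1)]
      ext i
      fin_cases i
      · show a 0 = q 0
        linarith
      · show a 1 = q 1
        linarith
    · left
      exact h q hq.1 hq.2 hqb
  have := convexHull_min hsub (convex_lex a b) hmem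
  simp only [Set.mem_setOf_eq, orient_self_left, lt_irrefl, false_or, true_and, sub_self,
    zero_mul, add_zero] at this

lemma ext_of_edge' {T : Finset E2} {a b : E2} (hb : b ∈ T) (hab : a ≠ b)
    (h : ∀ p ∈ T, p ≠ a → p ≠ b → 0 < orient a b p) : b ∈ extPts T := by
  refine ⟨hb, fun hmem => ?_⟩
  have hsub : ((T : Set E2) \ {b}) ⊆ {q : E2 | 0 < orient a b q ∨
    (orient a b q = 0 ∧ 0 < (q 0 - b 0) * (a 0 - b 0) + (q 1 - b 1) * (a 1 - b 1))} := by
    intro q hq
    by_cases hqb : q = a
    · right
      subst hqb
      refine ⟨orient_self_left q b, ?_⟩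
      by_contra hcon
      have hcon := not_lt.1 hcon
      apply hab
      have h1 : q 0 - b 0 = 0 := by nlinarith [sq_nonneg (q 0 - b 0), sq_nonneg (q 1 - b 1)]
      have h2 : q 1 - b 1 = 0 := by nlinarith [sq_nonneg (q 0 - b 0), sq_nonneg (q 1 - b 1)]
      ext i
      fin_cases i
      · show q 0 = b 0
        linarith
      · show q 1 = b 1
        linarith
    · left
      exact h q hq.1 hqb hq.2
  have hconv : Convex ℝ {q : E2 | 0 < orient a b q ∨
    (orient a b q = 0 ∧ 0 < (q 0 - b 0) * (a 0 - b 0) + (q 1 - b 1) * (a 1 - b 1))} := by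
    intro x hx y hy s t hs ht hst
    have e1 : orient a b (s • x + t • y) = s * orient a b x + t * orient a b y := by
      have : s = 1 - t := by linarith
      subst this
      simp only [orient, PiLp.add_apply, PiLp.smul_apply, smul_eq_mul]
      ring
    have e2 : ((s • x + t • y) 0 - b 0) * (a 0 - b 0) + ((s • x + t • y) 1 - b 1) * (a 1 - b 1)
        = s * ((x 0 - b 0) * (a 0 - b 0) + (x 1 - b 1) * (a 1 - b 1)) +
          t * ((y 0 - b 0) * (a 0 - b 0) + (y 1 - b 1) * (a 1 - b 1)) := by
      have : s = 1 - t := by linarith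
      subst this
      simp only [PiLp.add_apply, PiLp.smul_apply, smul_eq_mul]
      ring
    simp only [Set.mem_setOf_eq] at hx hy ⊢
    rw [e1, e2]
    rcases hs.eq_or_lt with h0 | h0
    · have : t = 1 := by linarith
      rw [← h0, this]
      simpa using hy
    · rcases ht.eq_or_lt with h1 | h1
      · have : s = 1 := by linarith
        rw [← h1, this]
        simpa using hx
      · rcases hx with hx | ⟨hx, hx'⟩ <;> rcases hy with hy | ⟨hy, hy'⟩
        · left; positivity
        · left; rw [hy]; simpa using mul_pos h0 hx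
        · left; rw [hx]; simpa using mul_pos h1 hy
        · right
          rw [hx, hy]
          refine ⟨by ring, by positivity⟩
  have := convexHull_min hsub hconv hmem
  simp only [Set.mem_setOf_eq, orient_self_right, lt_irrefl, false_or, true_and, sub_self,
    zero_mul, add_zero] at this

/-- along a convex chain a point becomes visible at most once -/
lemma start_unique {K : ℕ} {z : ℕ → E2} (hz : IsChain' K z) (p : E2) {i j : ℕ} (hij : i < j)
    (hj : j + 2 < K) (h1 : 0 ≤ orient (z i) (z (i+1)) p) (h2 : orient (z (i+1)) (z (i+2)) p < 0)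
    (h3 : 0 ≤ orient (z j) (z (j+1)) p) (h4 : orient (z (j+1)) (z (j+2)) p < 0) : False := by
  have hne : i + 1 ≠ j := by
    rintro rfl
    linarith
  have hij2 : i + 2 ≤ j := by omega
  have abc := hz i (i+1) (i+2) (by omega) (by omega) (by omega)
  have abe := hz i (i+1) (j+1) (by omega) (by omega) (by omega)
  have bce := hz (i+1) (i+2) (j+1) (by omega) (by omega) (by omega)
  have bde := hz (i+1) j (j+1) (by omega) (by omega) (by omega)
  have bef := hz (i+1) (j+1) (j+2) (by omega) (by omega) (by omega)
  have def' := hz j (j+1) (j+2) (by omega) (by omega) (by omega)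
  have bep : orient (z (i+1)) (z (j+1)) p < 0 := by
    by_contra hcon
    have hcon := not_lt.1 hcon
    have key : orient (z (i+1)) (z (i+2)) (z (j+1)) * orient (z i) (z (i+1)) p =
        (- orient (z (i+1)) (z (j+1)) p) * orient (z i) (z (i+1)) (z (i+2)) +
        orient (z (i+1)) (z (i+2)) p * orient (z i) (z (i+1)) (z (j+1)) := by
      unfold orient; ring
    have t1 := mul_nonneg bce.le h1
    have t2 := mul_nonneg hcon abc.le
    have t3 := mul_neg_of_neg_of_pos h2 abe
    linarith
  have key : orient (z (i+1)) (z (j+1)) (z (j+2)) * orient (z j) (z (j+1)) p =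
      orient (z (i+1)) (z (j+1)) p * orient (z j) (z (j+1)) (z (j+2)) +
      orient (z (j+1)) (z (j+2)) p * orient (z (i+1)) (z j) (z (j+1)) := by
    unfold orient; ring
  have t1 := mul_nonneg bef.le h3
  have t2 := mul_neg_of_neg_of_pos bep def'
  have t3 := mul_neg_of_neg_of_pos h4 bde
  linarith

/-- a convex chain enters a half plane at most once -/
lemma enter_unique {K : ℕ} {z : ℕ → E2} (hz : IsChain' K z) (u v : E2) {i j : ℕ} (hij : i < j)
    (hj : j + 1 < K) (h1 : orient u v (z i) < 0) (h2 : 0 ≤ orient u v (z (i+1)))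
    (h3 : orient u v (z j) < 0) (h4 : 0 ≤ orient u v (z (j+1))) : False := by
  have hne : i + 1 ≠ j := by
    rintro rfl
    linarith
  have bcd := hz (i+1) j (j+1) (by omega) (by omega) (by omega)
  have acd := hz i j (j+1) (by omega) (by omega) (by omega)
  have abd := hz i (i+1) (j+1) (by omega) (by omega) (by omega)
  have abc := hz i (i+1) j (by omega) (by omega) (by omega)
  have key : orient (z (i+1)) (z j) (z (j+1)) * orient u v (z i)
      - orient (z i) (z j) (z (j+1)) * orient u v (z (i+1))
      + orient (z i) (z (i+1)) (z (j+1)) * orient u v (z j)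
      - orient (z i) (z (i+1)) (z j) * orient u v (z (j+1)) = 0 := by
    unfold orient; ring
  have t1 := mul_neg_of_pos_of_neg bcd h1
  have t2 := mul_nonneg acd.le h2
  have t3 := mul_neg_of_pos_of_neg abd h3
  have t4 := mul_nonneg abc.le h4
  linarith

end Pool.Agent.Lib.Pec6744
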