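import Pool.Agent.Lib.Pec6744.Main

/-!
# Assembly of the upper bound
-/

namespace Pool.Agent.Lib.Pec6744

open Finset Classical

/-- the combinatorial inequality: if no `n`-subset has `2 m + 1` hull vertices, then the number of
chains times their length is small -/
theorem chains_bound {P : Finset E2} (hP : GenPos P) {m n δ B K r : ℕ} (hm : 1 ≤ m)
    (hn : 2 * m + 1 ≤ n) (hno : NoBig P n (2 * m + 1)) {Z : ℕ → ℕ → E2}
    (hZ1 : ∀ t, t < r → ∀ i, i < K → Z t i ∈ P)
    (hZ2 : ∀ t t' i i', t < r → t' < r → i < K → i' < K → Z t i = Z t' i' → t = t' ∧ i = i')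
    (hZ3 : ∀ t, t < r → IsChain' K (Z t)) (hK : 2 * m + 1 ≤ K)
    (hB : (2 * m - 1) * P.card < (B + 1) * δ) (hN : n + m * (n + δ) ≤ P.card) :
    r * K ≤ (n + δ + r) * (m + 1) + r * (B + 2 * m + 1) := by
  set k := 2 * m + 1 with hk
  set R := (Finset.range (K - k + 1)).filter (fun i => i + k ≤ K) with hR
  have hRc : R.card = K - k + 1 := by
    rw [hR, Finset.filter_true_of_mem, Finset.card_range]
    intro i hi
    rw [Finset.mem_range] at hi
    omega
  -- good indices
  set G : ℕ → Finset ℕ := fun t => R.filter (fun i => ¬ (n + δ < (innS P (Z t) i).card)) with hG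
  have hGc : ∀ t, t < r → K ≤ (G t).card + (B + k) := by
    intro t ht
    have h1 := card_bad (δ := δ) hP (by omega : 3 ≤ k) hn hno (hZ1 t ht)
      (fun i j hij hj heq => by
        have := (hZ2 t t i j ht ht (by omega) hj heq).2
        omega) (hZ3 t ht)
    rw [← hR] at h1
    have h2 : (R.filter (fun i => n + δ < (innS P (Z t) i).card)).card ≤ B := by
      by_contra hcon
      have hcon : B + 1 ≤ _ := not_le.1 hcon
      have h3 := Nat.mul_le_mul_right δ hcon
      have h4 : k - 2 = 2 * m - 1 := by omega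
      rw [h4] at h1
      omega
    have h3 := Finset.card_filter_add_card_filter_not (s := R) (fun i => n + δ < (innS P (Z t) i).card)
    have h4 : (G t).card = (R.filter (fun i => ¬ (n + δ < (innS P (Z t) i).card))).card := rfl
    omega
  -- the edge set
  set J : Finset (Σ _ : ℕ, ℕ) := (Finset.range r).sigma G with hJ
  set ed : (Σ _ : ℕ, ℕ) → E2 × E2 := fun q => (Z q.1 q.2, Z q.1 (q.2 + 1)) with hed
  have hJmem : ∀ q ∈ J, q.1 < r ∧ q.2 + k ≤ K ∧ (innS P (Z q.1) q.2).card ≤ n + δ := by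
    intro q hq
    obtain ⟨h1, h2⟩ := Finset.mem_sigma.1 hq
    obtain ⟨h3, h4⟩ := Finset.mem_filter.1 h2
    exact ⟨Finset.mem_range.1 h1, (Finset.mem_filter.1 h3).2, not_lt.1 h4⟩
  set E := J.image ed with hE
  have hEc : E.card = J.card := by
    apply Finset.card_image_of_injOn
    intro q hq q' hq' heq
    obtain ⟨a1, a2, _⟩ := hJmem q hq
    obtain ⟨b1, b2, _⟩ := hJmem q' hq'
    have h1 : Z q.1 q.2 = Z q'.1 q'.2 := congrArg Prod.fst heq
    obtain ⟨h2, h3⟩ := hZ2 _ _ _ _ a1 b1 (by omega) (by omega) h1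
    exact Sigma.ext h2 (heq_of_eq h3)
  have hJc : r * K ≤ J.card + r * (B + k) := by
    rw [hJ, Finset.card_sigma]
    have h1 : ∑ t ∈ Finset.range r, K ≤ ∑ t ∈ Finset.range r, ((G t).card + (B + k)) :=
      Finset.sum_le_sum (fun t ht => hGc t (Finset.mem_range.1 ht))
    rw [Finset.sum_add_distrib, Finset.sum_const, Finset.sum_const, Finset.card_range, smul_eq_mul,
      smul_eq_mul] at h1
    exact h1
  have hED : ∀ e ∈ E, (P.filter (fun p => 0 ≤ orient e.1 e.2 p)).card ≤ n + δ := by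
    intro e he
    obtain ⟨q, hq, rfl⟩ := Finset.mem_image.1 he
    exact (hJmem q hq).2.2
  by_contra hcon
  have hcon := not_le.1 hcon
  have hk2 : r * (B + 2 * m + 1) = r * (B + k) := by rw [hk]; ring
  have hbig : (n + δ + r) * (m + 1) < E.card := by omega
  -- meeting bound
  have hmeet : ∀ e ∈ E, (E.filter (fun f => Meets f e)).card ≤ n + δ + r := by
    intro e he
    -- indices
    set A1 := J.filter (fun q => 0 ≤ orient e.1 e.2 (Z q.1 q.2)) with hA1
    set A2 := J.filter (fun q => orient e.1 e.2 (Z q.1 q.2) < 0 ∧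
      0 ≤ orient e.1 e.2 (Z q.1 (q.2+1))) with hA2
    have hsub : E.filter (fun f => Meets f e) ⊆ (A1 ∪ A2).image ed := by
      intro f hf
      obtain ⟨hfE, hfm⟩ := Finset.mem_filter.1 hf
      obtain ⟨q, hq, rfl⟩ := Finset.mem_image.1 hfE
      apply Finset.mem_image_of_mem
      by_cases h : 0 ≤ orient e.1 e.2 (Z q.1 q.2)
      · exact Finset.mem_union_left _ (Finset.mem_filter.2 ⟨hq, h⟩)
      · apply Finset.mem_union_right
        refine Finset.mem_filter.2 ⟨hq, not_le.1 h, ?_⟩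
        exact hfm.resolve_left h
    have h1 := (Finset.card_le_card hsub).trans (Finset.card_image_le.trans (Finset.card_union_le _ _))
    have h2 : A1.card ≤ n + δ := by
      refine le_trans ?_ (hED e he)
      apply Finset.card_le_card_of_injOn (fun q => Z q.1 q.2)
      · intro q hq
        obtain ⟨hqJ, hq1⟩ := Finset.mem_filter.1 hq
        obtain ⟨a1, a2, _⟩ := hJmem q hqJ
        exact Finset.mem_coe.2 (Finset.mem_filter.2 ⟨hZ1 _ a1 _ (by omega), hq1⟩)
      · intro q hq q' hq' heq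
        obtain ⟨a1, a2, _⟩ := hJmem q (Finset.mem_filter.1 hq).1
        obtain ⟨b1, b2, _⟩ := hJmem q' (Finset.mem_filter.1 hq').1
        obtain ⟨h2, h3⟩ := hZ2 _ _ _ _ a1 b1 (by omega) (by omega) heq
        exact Sigma.ext h2 (heq_of_eq h3)
    have h3 : A2.card ≤ r := by
      calc A2.card ≤ (Finset.range r).card := by
            apply Finset.card_le_card_of_injOn (fun q => q.1)
            · intro q hq
              obtain ⟨a1, a2, _⟩ := hJmem q (Finset.mem_filter.1 hq).1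
              exact Finset.mem_coe.2 (Finset.mem_range.2 a1)
            · intro q hq q' hq' heq
              obtain ⟨hqJ, c1, c2⟩ := Finset.mem_filter.1 hq
              obtain ⟨hqJ', d1, d2⟩ := Finset.mem_filter.1 hq'
              obtain ⟨a1, a2, _⟩ := hJmem q hqJ
              obtain ⟨b1, b2, _⟩ := hJmem q' hqJ'
              have heq : q.1 = q'.1 := heq
              refine Sigma.ext heq (heq_of_eq ?_)
              by_contra hne
              rw [← heq] at d1 d2
              rcases lt_or_gt_of_ne hne with h | h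
              · exact enter_unique (hZ3 _ a1) e.1 e.2 h (by omega) c1 c2 d1 d2
              · exact enter_unique (hZ3 _ a1) e.1 e.2 h (by omega) d1 d2 c1 c2
        _ = r := Finset.card_range r
    omega
  obtain ⟨C, hCE, hCc, hCi⟩ := exists_indep_edges E (n + δ + r) (m - 1) hmeet (by
    have : m - 1 + 2 = m + 1 := by omega
    rw [this]; exact hbig)
  have hCc' : C.card = m + 1 := by omega
  obtain ⟨T, hT1, hT2, hT3⟩ := of_indep (P := P) (m := m) (n := n) (D := n + δ) C hCc' (by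
    intro e he
    obtain ⟨q, hq, rfl⟩ := Finset.mem_image.1 (hCE he)
    obtain ⟨a1, a2, _⟩ := hJmem q hq
    refine ⟨hZ1 _ a1 _ (by omega), hZ1 _ a1 _ (by omega), ?_⟩
    intro heq
    have := (hZ2 _ _ _ _ a1 a1 (by omega) (by omega) heq).2
    omega) hCi (fun e he => hED e (hCE he)) hn hN
  have := hno T hT1 hT2
  omega

/-- **Upper bound.** For `k = 2 m + 1` every set in general position with at least
`(m + 1 + ε) n` points has an `n`-subset with at least `k` hull vertices, `n` large. -/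
theorem upper_bound (m : ℕ) (hm : 1 ≤ m) (ε : ℝ) (hε : 0 < ε) :
    ∃ n0 : ℕ, ∀ n : ℕ, n0 ≤ n → ∀ P : Finset E2, GenPos P → ((m : ℝ) + 1 + ε) * n ≤ P.card →
      ∃ T : Finset E2, T ⊆ P ∧ T.card = n ∧ 2 * m + 1 ≤ (extPts T).ncard := by
  -- reduce to `ε ≤ 1`
  wlog hε1 : ε ≤ 1 generalizing ε
  · obtain ⟨n0, h⟩ := this 1 one_pos le_rfl
    refine ⟨n0, fun n hn P hP hc => h n hn P hP ?_⟩
    refine le_trans ?_ hc
    have : (1:ℝ) < ε := not_le.1 hε1
    have hn' : (0:ℝ) ≤ n := Nat.cast_nonneg n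
    nlinarith
  have hm' : (1:ℝ) ≤ m := by exact_mod_cast hm
  set η : ℝ := ε / (8 * (m + 1)) with hη
  have hη0 : 0 < η := by positivity
  obtain ⟨B, hB⟩ := exists_nat_gt ((2 * (m:ℝ)) * (m + 3) / η)
  obtain ⟨K, hK⟩ := exists_nat_gt (8 * ((m:ℝ) + 3) * (m + 1 + B + 2 * m + 1) / ε + (2 * m + 1))
  obtain ⟨F, hF⟩ := exists_chain K
  obtain ⟨n1, hn1⟩ := exists_nat_gt (4 * ((m:ℝ) + 1 + F) / ε + (2 * m + 1) + 1 / η + 1 )
  refine ⟨n1, fun n hn P0 hP0 hc0 => ?_⟩
  have hnR : (n1 : ℝ) ≤ n := by exact_mod_cast hn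
  have hq1 : 0 ≤ 4 * ((m:ℝ) + 1 + F) / ε := by positivity
  have hq2 : 0 < 1 / η := by positivity
  have hnpos : (1:ℝ) ≤ n := by linarith
  have hnm : 2 * m + 1 ≤ n := by
    have : (2 * (m:ℝ) + 1) ≤ n := by linarith
    exact_mod_cast this
  -- pass to a subset with the right number of points
  set N := ⌈((m:ℝ) + 1 + ε) * n⌉₊ with hNdef
  have hNle : N ≤ P0.card := Nat.ceil_le.2 hc0
  obtain ⟨P, hPP0, hPc⟩ := Finset.exists_subset_card_eq hNle
  have hP : GenPos P := fun a ha b hb c hc => hP0 a (hPP0 ha) b (hPP0 hb) c (hPP0 hc)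
  have hN1 : ((m:ℝ) + 1 + ε) * n ≤ N := Nat.le_ceil _
  have hN2 : (N:ℝ) < ((m:ℝ) + 1 + ε) * n + 1 := Nat.ceil_lt_add_one (by positivity)
  have hN3 : (N:ℝ) ≤ (m + 3) * n := by nlinarith
  by_contra hcon
  push Not at hcon
  have hno : NoBig P n (2 * m + 1) := fun T hT hTc => hcon T (hT.trans hPP0) hTc
  set δ := ⌈η * n⌉₊ with hδ
  have hδ1 : η * n ≤ δ := Nat.le_ceil _
  have hδ2 : (δ:ℝ) < η * n + 1 := Nat.ceil_lt_add_one (by positivity)
  have hmη : ((m:ℝ) + 1) * (η * n) = ε * n / 8 := by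
    rw [hη]; field_simp
  have hεn : 4 * ((m:ℝ) + 1 + F) < ε * n := by
    have h1 : 4 * ((m:ℝ) + 1 + F) / ε < n := by linarith
    rw [div_lt_iff₀ hε] at h1
    linarith
  have hKm : 2 * m + 1 ≤ K := by
    have h1 : 0 ≤ 8 * ((m:ℝ) + 3) * (m + 1 + B + 2 * m + 1) / ε := by positivity
    have : (2 * (m:ℝ) + 1) ≤ K := by linarith
    exact_mod_cast this
  obtain ⟨r, Z, hZ1, hZ2, hZ3, hZ4⟩ := exists_partition (K := K) (by omega) hF P.card P rfl hP
  have hrK : r * K ≤ P.card := by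
    have : (((Finset.range r) ×ˢ (Finset.range K)).image (fun q => Z q.1 q.2)).card = r * K := by
      rw [Finset.card_image_of_injOn, Finset.card_product, Finset.card_range, Finset.card_range]
      intro q hq q' hq' heq
      rw [Finset.mem_coe, Finset.mem_product, Finset.mem_range, Finset.mem_range] at hq hq'
      obtain ⟨h1, h2⟩ := hZ2 _ _ _ _ hq.1 hq'.1 hq.2 hq'.2 heq
      exact Prod.ext h1 h2
    rw [← this]
    apply Finset.card_le_card
    intro p hp
    obtain ⟨q, hq, rfl⟩ := Finset.mem_image.1 hp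
    rw [Finset.mem_product, Finset.mem_range, Finset.mem_range] at hq
    exact hZ1 _ hq.1 _ hq.2
  have hBb : (2 * m - 1) * P.card < (B + 1) * δ := by
    have h1 : (2 * (m:ℝ)) * (m + 3) < B * η := by
      rwa [div_lt_iff₀ hη0] at hB
    have h2 : ((2 * m - 1 : ℕ):ℝ) ≤ 2 * m := by
      have : 2 * m - 1 ≤ 2 * m := by omega
      exact_mod_cast this
    have h3 : (((2 * m - 1) * P.card : ℕ) : ℝ) < (((B + 1) * δ : ℕ) : ℝ) := by
      push_cast [hPc]
      have hNn : (0:ℝ) ≤ N := Nat.cast_nonneg N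
      have hB0 : (0:ℝ) ≤ B := Nat.cast_nonneg B
      have s1 : ((2 * m - 1 : ℕ):ℝ) * N ≤ 2 * m * ((m + 3) * n) :=
        mul_le_mul h2 hN3 hNn (by positivity)
      have s2 : 2 * (m:ℝ) * ((m + 3) * n) < B * η * n := by nlinarith
      have s3 : (B:ℝ) * η * n ≤ B * δ := by
        have := mul_le_mul_of_nonneg_left hδ1 hB0
        linarith
      have s4 : (B:ℝ) * δ ≤ (B + 1) * δ := by
        have : (0:ℝ) ≤ δ := Nat.cast_nonneg δ
        linarith
      linarith
    exact_mod_cast h3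
  have hNn : n + m * (n + δ) ≤ P.card := by
    rw [hPc]
    have h3 : ((n + m * (n + δ) : ℕ) : ℝ) ≤ ((N : ℕ) : ℝ) := by
      push_cast
      have hF0 : (0:ℝ) ≤ F := Nat.cast_nonneg F
      have : (m:ℝ) * δ ≤ (m + 1) * (η * n) + m := by nlinarith
      nlinarith
    exact_mod_cast h3
  have hmain := chains_bound (B := B) (δ := δ) hP hm hnm hno hZ1 hZ2 hZ3 hKm hBb hNn
  have hmainR : (r:ℝ) * K ≤ (n + δ + r) * (m + 1) + r * (B + 2 * m + 1) := by exact_mod_cast hmain
  have hrR : (r:ℝ) * K ≤ N := by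
    have : r * K ≤ N := by rw [← hPc]; exact hrK
    exact_mod_cast this
  have hNr : (N:ℝ) ≤ r * K + F := by
    have : N ≤ r * K + F := by rw [← hPc]; exact hZ4
    exact_mod_cast this
  -- bound on `r`
  have hKε : 8 * ((m:ℝ) + 3) * (m + 1 + B + 2 * m + 1) < K * ε := by
    have h1 : 8 * ((m:ℝ) + 3) * (m + 1 + B + 2 * m + 1) / ε < K := by
      have : (0:ℝ) ≤ m := by linarith
      linarith
    rwa [div_lt_iff₀ hε] at h1
  have hr0 : (0:ℝ) ≤ r := Nat.cast_nonneg r
  have hKpos : (0:ℝ) < K := by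
    have : 0 < K := by omega
    exact_mod_cast this
  have hrb : (r:ℝ) * (m + 1 + B + 2 * m + 1) ≤ ε * n / 8 := by
    have h1 : (r:ℝ) * K ≤ (m + 3) * n := hrR.trans hN3
    -- r * c * 8 * (m+3) ≤ r K ε ≤ (m+3) n ε
    have h2 : (r:ℝ) * (8 * ((m:ℝ) + 3) * (m + 1 + B + 2 * m + 1)) ≤ r * (K * ε) :=
      mul_le_mul_of_nonneg_left hKε.le hr0
    have h3 : (r:ℝ) * (K * ε) ≤ (m + 3) * n * ε := by
      have := mul_le_mul_of_nonneg_right h1 hε.le
      linarith
    have h4 : (0:ℝ) < m + 3 := by linarith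
    have h5 : ((m:ℝ) + 3) * (r * (m + 1 + B + 2 * m + 1) * 8) ≤ (m + 3) * (n * ε) := by linarith
    have h6 := le_of_mul_le_mul_left h5 h4
    linarith
  have hfin : (N:ℝ) ≤ (m + 1) * n + ε * n / 8 + (m + 1) + ε * n / 8 + F := by
    have : ((m:ℝ) + 1) * δ ≤ ε * n / 8 + (m + 1) := by
      have h1 : ((m:ℝ) + 1) * δ ≤ (m + 1) * (η * n + 1) :=
        mul_le_mul_of_nonneg_left hδ2.le (by linarith)
      linarith
    nlinarith
  nlinarith

end Pool.Agent.Lib.Pec6744
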