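import Pool.Agent.Lib.Pec6744.Depth

/-!
# Counting: good edges of long chains
-/

namespace Pool.Agent.Lib.Pec6744

open Finset Classical

/-- the inner side of the `i`-th edge of the chain `z` -/
noncomputable def innS (P : Finset E2) (z : ℕ → E2) (i : ℕ) : Finset E2 :=
  P.filter (fun p => 0 ≤ orient (z i) (z (i+1)) p)

/-- the common inner side of `k-1` consecutive edges -/
noncomputable def core (P : Finset E2) (z : ℕ → E2) (k i : ℕ) : Finset E2 :=
  P.filter (fun p => ∀ j, i ≤ j → j < i + (k-1) → 0 ≤ orient (z j) (z (j+1)) p)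

/-- every `n`-subset has fewer than `k` hull vertices -/
def NoBig (P : Finset E2) (n k : ℕ) : Prop :=
  ∀ T : Finset E2, T ⊆ P → T.card = n → (extPts T).ncard < k

lemma extPts_finite (T : Finset E2) : (extPts T).Finite :=
  T.finite_toSet.subset (fun _ hp => hp.1)

lemma core_card {P : Finset E2} (hP : GenPos P) {n k : ℕ} (hk : 3 ≤ k) (hkn : k ≤ n)
    (hno : NoBig P n k) {K : ℕ} {z : ℕ → E2} (hzP : ∀ i, i < K → z i ∈ P)
    (hinj : ∀ i j, i < j → j < K → z i ≠ z j) (hz : IsChain' K z) {i : ℕ} (hi : i + k ≤ K) :
    (core P z k i).card < n := by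
  by_contra hcon
  have hcon := not_lt.1 hcon
  have hinj' : ∀ a b, a < K → b < K → z a = z b → a = b := by
    intro a b ha hb hab
    by_contra hne
    rcases lt_or_gt_of_ne hne with h | h
    · exact hinj a b h hb hab
    · exact hinj b a h ha hab.symm
  set V : Finset E2 := (Finset.range k).image (fun l => z (i + l)) with hV
  have hVcard : V.card = k := by
    rw [hV, Finset.card_image_of_injOn, Finset.card_range]
    intro a ha b hb hab
    rw [Finset.coe_range, Set.mem_Iio] at ha hb
    have := hinj' (i+a) (i+b) (by omega) (by omega) hab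
    omega
  have hVcore : V ⊆ core P z k i := by
    intro p hp
    rw [hV, Finset.mem_image] at hp
    obtain ⟨l, hl, rfl⟩ := hp
    rw [Finset.mem_range] at hl
    refine Finset.mem_filter.2 ⟨hzP _ (by omega), fun j hj1 hj2 => ?_⟩
    rcases lt_trichotomy (i+l) j with h | h | h
    · have := hz (i+l) j (j+1) h (by omega) (by omega)
      rw [orient_cycl] at this
      exact this.le
    · rw [h, orient_self_left]
    · rcases Nat.lt_or_ge (j+1) (i+l) with h' | h'
      · exact (hz j (j+1) (i+l) (by omega) h' (by omega)).le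
      · have : i + l = j + 1 := by omega
        rw [this, orient_self_right]
  obtain ⟨T, hVT, hTC, hTn⟩ := Finset.exists_subsuperset_card_eq hVcore (by omega) hcon
  have hTP : T ⊆ P := hTC.trans (Finset.filter_subset _ _)
  have hlt := hno T hTP hTn
  have hsub : (V : Set E2) ⊆ extPts T := by
    intro p hp
    have hpT : p ∈ T := hVT hp
    rw [hV, Finset.coe_image] at hp
    obtain ⟨l, hl, rfl⟩ := hp
    rw [Finset.coe_range, Set.mem_Iio] at hl
    change z (i + l) ∈ T at hpT
    change z (i + l) ∈ extPts T
    -- strictly positive away from the endpoints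
    have hpos : ∀ j, i ≤ j → j < i + (k-1) → ∀ q ∈ T, q ≠ z j → q ≠ z (j+1) →
        0 < orient (z j) (z (j+1)) q := by
      intro j hj1 hj2 q hq hq1 hq2
      have h0 := (Finset.mem_filter.1 (hTC hq)).2 j hj1 hj2
      have hne := hP (z j) (hzP _ (by omega)) (z (j+1)) (hzP _ (by omega)) q (hTP hq)
        (hinj _ _ (by omega) (by omega)) hq1.symm hq2.symm
      exact lt_of_le_of_ne h0 (Ne.symm hne)
    by_cases hlk : l < k - 1
    · exact ext_of_edge hpT (hinj (i+l) (i+l+1) (by omega) (by omega))
        (hpos (i+l) (by omega) (by omega))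
    · have hl' : l = k - 1 := by omega
      have e : i + l = i + (k-2) + 1 := by omega
      rw [e] at hpT ⊢
      exact ext_of_edge' hpT (hinj (i+(k-2)) (i+(k-2)+1) (by omega) (by omega))
        (hpos (i+(k-2)) (by omega) (by omega))
  have := Set.ncard_le_ncard hsub (extPts_finite T)
  rw [Set.ncard_coe_finset, hVcard] at this
  omega

lemma bad_indices_le {P : Finset E2} {k : ℕ} (hk : 3 ≤ k)
    {K : ℕ} {z : ℕ → E2} (hz : IsChain' K z) (p : E2) :
    (((Finset.range (K - k + 1)).filter (fun i => i + k ≤ K)).filter
      (fun i => p ∈ innS P z i \ core P z k i)).card ≤ k - 2 := by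
  set B := ((Finset.range (K - k + 1)).filter (fun i => i + k ≤ K)).filter
      (fun i => p ∈ innS P z i \ core P z k i) with hB
  -- every bad index comes with a start
  have hstart : ∀ i ∈ B, ∃ j, i ≤ j ∧ j < i + (k-2) ∧ j + 2 < K + 0 ∧
      0 ≤ orient (z j) (z (j+1)) p ∧ orient (z (j+1)) (z (j+2)) p < 0 := by
    intro i hi
    obtain ⟨h1, h2⟩ := Finset.mem_filter.1 hi
    obtain ⟨h3, h4⟩ := Finset.mem_filter.1 h1
    obtain ⟨h5, h6⟩ := Finset.mem_sdiff.1 h2
    obtain ⟨hpP, h7⟩ := Finset.mem_filter.1 h5
    have h8 : ∃ l, i ≤ l ∧ l < i + (k-1) ∧ orient (z l) (z (l+1)) p < 0 := by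
      by_contra hcon
      push Not at hcon
      exact h6 (Finset.mem_filter.2 ⟨hpP, hcon⟩)
    classical
    have hex : ∃ l, i ≤ l ∧ orient (z l) (z (l+1)) p < 0 := by
      obtain ⟨l, h9, _, h10⟩ := h8
      exact ⟨l, h9, h10⟩
    set l := Nat.find hex with hl
    have hl1 := Nat.find_spec hex
    rw [← hl] at hl1
    have hl2 : l < i + (k-1) := by
      obtain ⟨l', h9, h10, h11⟩ := h8
      have := Nat.find_min' hex ⟨h9, h11⟩
      omega
    have hil : i ≠ l := by
      intro h
      rw [← h] at hl1
      linarith [hl1.2]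
    refine ⟨l - 1, by omega, by omega, by omega, ?_, ?_⟩
    · by_contra hneg
      have hneg := not_le.1 hneg
      have := Nat.find_min hex (m := l - 1) (by omega)
      apply this
      refine ⟨by omega, hneg⟩
    · have e1 : l - 1 + 1 = l := by omega
      have e2 : l - 1 + 2 = l + 1 := by omega
      rw [e1, e2]
      exact hl1.2
  rcases B.eq_empty_or_nonempty with h0 | ⟨i0, hi0⟩
  · rw [h0]; simp
  · obtain ⟨j0, a1, a2, a3, a4, a5⟩ := hstart i0 hi0
    have hsub : B ⊆ Finset.Ico (j0 + 1 - (k-2)) (j0 + 1) := by
      intro i hi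
      obtain ⟨j, b1, b2, b3, b4, b5⟩ := hstart i hi
      have hjj : j = j0 := by
        by_contra hne
        rcases lt_or_gt_of_ne hne with h | h
        · exact start_unique hz p h (by omega) b4 b5 a4 a5
        · exact start_unique hz p h (by omega) a4 a5 b4 b5
      subst hjj
      rw [Finset.mem_Ico]
      omega
    refine (Finset.card_le_card hsub).trans ?_
    rw [Nat.card_Ico]
    omega

/-- few indices of a chain have a rich inner side -/
lemma card_bad {P : Finset E2} (hP : GenPos P) {n k δ : ℕ} (hk : 3 ≤ k) (hkn : k ≤ n)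
    (hno : NoBig P n k) {K : ℕ} {z : ℕ → E2} (hzP : ∀ i, i < K → z i ∈ P)
    (hinj : ∀ i j, i < j → j < K → z i ≠ z j) (hz : IsChain' K z) :
    (((Finset.range (K - k + 1)).filter (fun i => i + k ≤ K)).filter
      (fun i => n + δ < (innS P z i).card)).card * δ ≤ (k - 2) * P.card := by
  set R := (Finset.range (K - k + 1)).filter (fun i => i + k ≤ K) with hR
  have h1 : (R.filter (fun i => n + δ < (innS P z i).card)).card * δ ≤
      ∑ i ∈ R.filter (fun i => n + δ < (innS P z i).card), (innS P z i \ core P z k i).card := by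
    rw [← smul_eq_mul, ← Finset.sum_const]
    apply Finset.sum_le_sum
    intro i hi
    obtain ⟨h2, h3⟩ := Finset.mem_filter.1 hi
    have h4 := core_card hP hk hkn hno hzP hinj hz (Finset.mem_filter.1 h2).2
    have h5 := Finset.le_card_sdiff (core P z k i) (innS P z i)
    omega
  have h2 : ∑ i ∈ R.filter (fun i => n + δ < (innS P z i).card), (innS P z i \ core P z k i).card
      ≤ ∑ i ∈ R, (innS P z i \ core P z k i).card :=
    Finset.sum_le_sum_of_subset (Finset.filter_subset _ _)
  have h3 : ∑ i ∈ R, (innS P z i \ core P z k i).card =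
      ∑ p ∈ P, (R.filter (fun i => p ∈ innS P z i \ core P z k i)).card := by
    have : ∀ i, (innS P z i \ core P z k i).card =
        ∑ p ∈ P, if p ∈ innS P z i \ core P z k i then 1 else 0 := by
      intro i
      rw [← Finset.card_filter]
      congr 1
      ext p
      simp only [Finset.mem_filter]
      constructor
      · intro h
        exact ⟨(Finset.mem_filter.1 (Finset.mem_sdiff.1 h).1).1, h⟩
      · intro h; exact h.2
    simp only [this, Finset.card_filter]
    exact Finset.sum_comm
  have h4 : ∑ p ∈ P, (R.filter (fun i => p ∈ innS P z i \ core P z k i)).card ≤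
      ∑ p ∈ P, (k - 2) := Finset.sum_le_sum (fun p _ => bad_indices_le hk hz p)
  rw [Finset.sum_const, smul_eq_mul] at h4
  calc _ ≤ _ := h1
    _ ≤ _ := h2
    _ = _ := h3
    _ ≤ _ := h4
    _ = _ := by ring

/-- partition into long chains -/
theorem exists_partition {K : ℕ} (hK : 1 ≤ K) {F : ℕ} (hF : ∀ P : Finset E2, GenPos P → F ≤ P.card →
    ∃ z : ℕ → E2, (∀ i, i < K → z i ∈ P) ∧ (∀ i j, i < j → j < K → z i ≠ z j) ∧ IsChain' K z) :
    ∀ N : ℕ, ∀ P : Finset E2, P.card = N → GenPos P → ∃ (r : ℕ) (Z : ℕ → ℕ → E2),
      (∀ t, t < r → ∀ i, i < K → Z t i ∈ P) ∧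
      (∀ t t' i i', t < r → t' < r → i < K → i' < K → Z t i = Z t' i' → t = t' ∧ i = i') ∧
      (∀ t, t < r → IsChain' K (Z t)) ∧ P.card ≤ r * K + F := by
  intro N
  induction N using Nat.strong_induction_on with
  | _ N ih =>
    intro P hPN hP
    rcases Nat.lt_or_ge P.card F with h | h
    · refine ⟨0, fun _ _ => 0, fun t ht => absurd ht (by omega), fun t t' i i' ht => absurd ht (by omega),
        fun t ht => absurd ht (by omega), by omega⟩
    · obtain ⟨z, hz1, hz2, hz3⟩ := hF P hP h
      set W := (Finset.range K).image z with hW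
      have hWP : W ⊆ P := by
        intro p hp
        rw [hW, Finset.mem_image] at hp
        obtain ⟨i, hi, rfl⟩ := hp
        exact hz1 i (Finset.mem_range.1 hi)
      have hWc : W.card = K := by
        rw [hW, Finset.card_image_of_injOn, Finset.card_range]
        intro a ha b hb hab
        rw [Finset.coe_range, Set.mem_Iio] at ha hb
        by_contra hne
        rcases lt_or_gt_of_ne hne with h | h
        · exact hz2 a b h hb hab
        · exact hz2 b a h ha hab.symm
      have hc := Finset.card_sdiff_add_card_eq_card hWP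
      have hsub : P \ W ⊆ P := Finset.sdiff_subset
      obtain ⟨r, Z, hZ1, hZ2, hZ3, hZ4⟩ := ih (P \ W).card (by omega) (P \ W) rfl
        (fun a ha b hb c hc => hP a (hsub ha) b (hsub hb) c (hsub hc))
      have hzW : ∀ i, i < K → z i ∈ W := fun i hi =>
        Finset.mem_image_of_mem _ (Finset.mem_range.2 hi)
      refine ⟨r + 1, fun t => if t < r then Z t else z, ?_, ?_, ?_, ?_⟩
      · intro t ht i hi
        by_cases h : t < r
        · simp only [h, if_true]; exact hsub (hZ1 t h i hi)
        · simp only [h, if_false]; exact hz1 i hi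
      · intro t t' i i' ht ht' hi hi' heq
        by_cases h : t < r <;> by_cases h' : t' < r
        · simp only [h, h', if_true] at heq
          exact hZ2 t t' i i' h h' hi hi' heq
        · simp only [h, h', if_true, if_false] at heq
          have := (Finset.mem_sdiff.1 (hZ1 t h i hi)).2
          rw [heq] at this
          exact absurd (hzW i' hi') this
        · simp only [h, h', if_true, if_false] at heq
          have := (Finset.mem_sdiff.1 (hZ1 t' h' i' hi')).2
          rw [← heq] at this
          exact absurd (hzW i hi) this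
        · simp only [h, h', if_false] at heq
          refine ⟨by omega, ?_⟩
          by_contra hne
          rcases lt_or_gt_of_ne hne with h | h
          · exact hz2 i i' h hi' heq
          · exact hz2 i' i h hi heq.symm
      · intro t ht
        by_cases h : t < r
        · simp only [h, if_true]; exact hZ3 t h
        · simp only [h, if_false]; exact hz3
      · have : (r+1) * K = r * K + K := by ring
        omega

end Pool.Agent.Lib.Pec6744
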