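import Pool.Agent.Lib.Pec6744.Edges

/-!
# Cups and caps: large sets contain large convex chains (Erdős–Szekeres)
-/

namespace Pool.Agent.Lib.Pec6744

section
variable {α : Type*} [DecidableEq α]

/-- orientation determinant in coordinates `X`, `Y` -/
def Ori (X Y : α → ℝ) (a b c : α) : ℝ := (X b - X a) * (Y c - Y a) - (Y b - Y a) * (X c - X a)

def IsCup (X Y : α → ℝ) (P : Finset α) (k : ℕ) (z : ℕ → α) : Prop :=
  (∀ i, i < k → z i ∈ P) ∧ (∀ i j, i < j → j < k → X (z i) < X (z j)) ∧
    ∀ i j l, i < j → j < l → l < k → 0 < Ori X Y (z i) (z j) (z l)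

omit [DecidableEq α] in
lemma ori_left {X Y : α → ℝ} {p q r s : α} (h1 : X p < X q) (h2 : X q < X r) (h3 : X r < X s)
    (a : 0 < Ori X Y p q r) (b : 0 < Ori X Y q r s) : 0 < Ori X Y p q s := by
  have key : (X r - X q) * Ori X Y p q s =
      (X s - X q) * Ori X Y p q r + (X q - X p) * Ori X Y q r s := by
    unfold Ori; ring
  have : 0 < (X r - X q) * Ori X Y p q s := by
    rw [key]
    have := mul_pos (by linarith : 0 < X s - X q) a
    have := mul_pos (by linarith : 0 < X q - X p) b
    linarith
  exact (pos_iff_pos_of_mul_pos this).1 (by linarith)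

omit [DecidableEq α] in
lemma ori_right {X Y : α → ℝ} {p q r s : α} (h1 : X p < X q) (h2 : X q < X r) (h3 : X r < X s)
    (a : 0 < Ori X Y p q r) (b : 0 < Ori X Y q r s) : 0 < Ori X Y p r s := by
  have key : (X r - X q) * Ori X Y p r s =
      (X s - X r) * Ori X Y p q r + (X r - X p) * Ori X Y q r s := by
    unfold Ori; ring
  have : 0 < (X r - X q) * Ori X Y p r s := by
    rw [key]
    have := mul_pos (by linarith : 0 < X s - X r) a
    have := mul_pos (by linarith : 0 < X r - X p) b
    linarith
  exact (pos_iff_pos_of_mul_pos this).1 (by linarith)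

lemma IsCup.extend_right {X Y : α → ℝ} {P : Finset α} {k : ℕ} {z : ℕ → α} (hz : IsCup X Y P k z)
    (hk : 2 ≤ k) {r : α} (hr : r ∈ P) (hx : X (z (k-1)) < X r)
    (ho : 0 < Ori X Y (z (k-2)) (z (k-1)) r) :
    IsCup X Y P (k+1) (fun i => if i < k then z i else r) := by
  obtain ⟨h1, h2, h3⟩ := hz
  have hlast : ∀ i, i < k → X (z i) < X r := by
    intro i hi
    rcases Nat.lt_or_ge i (k-1) with h | h
    · exact (h2 i (k-1) h (by omega)).trans hx
    · have : i = k-1 := by omega
      rw [this]; exact hx
  have A : ∀ i, i < k-1 → 0 < Ori X Y (z i) (z (k-1)) r := by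
    intro i hi
    rcases Nat.lt_or_ge i (k-2) with h | h
    · exact ori_right (h2 i (k-2) h (by omega)) (h2 (k-2) (k-1) (by omega) (by omega)) hx
        (h3 i (k-2) (k-1) h (by omega) (by omega)) ho
    · have : i = k-2 := by omega
      rw [this]; exact ho
  have B : ∀ i j, i < j → j < k → 0 < Ori X Y (z i) (z j) r := by
    intro i j hij hj
    rcases Nat.lt_or_ge j (k-1) with h | h
    · exact ori_left (h2 i j hij hj) (h2 j (k-1) h (by omega)) hx
        (h3 i j (k-1) hij h (by omega)) (A j h)
    · have : j = k-1 := by omega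
      rw [this]; exact A i (by omega)
  refine ⟨?_, ?_, ?_⟩
  · intro i hi
    by_cases h : i < k
    · simp only [h, if_true]; exact h1 i h
    · simp only [h, if_false]; exact hr
  · intro i j hij hj
    have hi : i < k := by omega
    by_cases h : j < k
    · simp only [h, hi, if_true]; exact h2 i j hij h
    · simp only [h, hi, if_true, if_false]; exact hlast i hi
  · intro i j l hij hjl hl
    have hi : i < k := by omega
    have hj : j < k := by omega
    by_cases h : l < k
    · simp only [h, hi, hj, if_true]; exact h3 i j l hij hjl h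
    · simp only [h, hi, hj, if_true, if_false]; exact B i j hij hj

lemma IsCup.extend_left {X Y : α → ℝ} {P : Finset α} {k : ℕ} {z : ℕ → α} (hz : IsCup X Y P k z)
    (hk : 2 ≤ k) {p : α} (hp : p ∈ P) (hx : X p < X (z 0))
    (ho : 0 < Ori X Y p (z 0) (z 1)) :
    IsCup X Y P (k+1) (fun i => if i = 0 then p else z (i-1)) := by
  obtain ⟨h1, h2, h3⟩ := hz
  have hfirst : ∀ i, i < k → X p < X (z i) := by
    intro i hi
    rcases Nat.eq_zero_or_pos i with h | h
    · rw [h]; exact hx
    · exact hx.trans (h2 0 i h hi)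
  have A : ∀ i, 0 < i → i < k → 0 < Ori X Y p (z 0) (z i) := by
    intro i hi hik
    rcases Nat.lt_or_ge 1 i with h | h
    · exact ori_left hx (h2 0 1 (by omega) (by omega)) (h2 1 i h hik) ho
        (h3 0 1 i (by omega) h hik)
    · have : i = 1 := by omega
      rw [this]; exact ho
  have B : ∀ i j, i < j → j < k → 0 < Ori X Y p (z i) (z j) := by
    intro i j hij hj
    rcases Nat.eq_zero_or_pos i with h | h
    · rw [h]; exact A j (by omega) hj
    · exact ori_right hx (h2 0 i h (by omega)) (h2 i j hij hj) (A i h (by omega))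
        (h3 0 i j h hij hj)
  refine ⟨?_, ?_, ?_⟩
  · intro i hi
    by_cases h : i = 0
    · simp only [h, if_true]; exact hp
    · simp only [h, if_false]; exact h1 _ (by omega)
  · intro i j hij hj
    have hj0 : j ≠ 0 := by omega
    by_cases h : i = 0
    · simp only [h, hj0, if_true, if_false]; exact hfirst _ (by omega)
    · simp only [h, hj0, if_false]; exact h2 _ _ (by omega) (by omega)
  · intro i j l hij hjl hl
    have hj0 : j ≠ 0 := by omega
    have hl0 : l ≠ 0 := by omega
    by_cases h : i = 0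
    · simp only [h, hj0, hl0, if_true, if_false]; exact B _ _ (by omega) (by omega)
    · simp only [h, hj0, hl0, if_false]; exact h3 _ _ _ (by omega) (by omega) (by omega)

omit [DecidableEq α] in
lemma isCup_two {X Y : α → ℝ} {P : Finset α} (hX : Set.InjOn X P) (h : 2 ≤ P.card) :
    ∃ z, IsCup X Y P 2 z := by
  obtain ⟨a, ha, b, hb, hab⟩ := Finset.one_lt_card.1 (by omega : 1 < P.card)
  have hne : X a ≠ X b := fun h => hab (hX ha hb h)
  have main : ∀ a b : α, a ∈ P → b ∈ P → X a < X b → ∃ z, IsCup X Y P 2 z := by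
    intro a b ha hb hlt
    refine ⟨fun i => if i = 0 then a else b, ?_, ?_, ?_⟩
    · intro i _
      by_cases h : i = 0
      · simp only [h, if_true]; exact ha
      · simp only [h, if_false]; exact hb
    · intro i j hij hj
      have hi : i = 0 := by omega
      have hj : j ≠ 0 := by omega
      simp only [hi, hj, if_true, if_false]; exact hlt
    · intro i j l hij hjl hl
      omega
  rcases lt_or_gt_of_ne hne with h | h
  · exact main a b ha hb h
  · exact main b a hb ha h

omit [DecidableEq α] in
lemma IsCup.mono {X Y : α → ℝ} {P Q : Finset α} {k : ℕ} {z : ℕ → α} (hz : IsCup X Y P k z)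
    (h : P ⊆ Q) : IsCup X Y Q k z := ⟨fun i hi => h (hz.1 i hi), hz.2.1, hz.2.2⟩

/-- Erdős–Szekeres cups and caps theorem (without explicit bound). -/
theorem cups_caps : ∀ s k l : ℕ, k + l = s → 2 ≤ k → 2 ≤ l →
    ∃ F : ℕ, ∀ (X Y : α → ℝ) (P : Finset α), Set.InjOn X P →
      (∀ a ∈ P, ∀ b ∈ P, ∀ c ∈ P, a ≠ b → a ≠ c → b ≠ c → Ori X Y a b c ≠ 0) → F ≤ P.card →
      (∃ z, IsCup X Y P k z) ∨ (∃ z, IsCup X (fun p => - Y p) P l z) := by
  intro s
  induction s using Nat.strong_induction_on with
  | _ s ih =>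
    intro k l hkl hk hl
    rcases Nat.lt_or_ge 2 k with hk3 | hk3
    swap
    · refine ⟨2, fun X Y P hX _ hc => Or.inl ?_⟩
      have : k = 2 := by omega
      rw [this]; exact isCup_two hX hc
    rcases Nat.lt_or_ge 2 l with hl3 | hl3
    swap
    · refine ⟨2, fun X Y P hX _ hc => Or.inr ?_⟩
      have : l = 2 := by omega
      rw [this]; exact isCup_two hX hc
    obtain ⟨F1, hF1⟩ := ih (k-1+l) (by omega) (k-1) l rfl (by omega) (by omega)
    obtain ⟨F2, hF2⟩ := ih (k+(l-1)) (by omega) k (l-1) rfl (by omega) (by omega)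
    refine ⟨F1 + F2, fun X Y P hX hgp hc => ?_⟩
    classical
    set Q := P.filter (fun q => ∃ w, IsCup X Y P (k-1) w ∧ w (k-2) = q) with hQ
    have hQP : Q ⊆ P := Finset.filter_subset _ _
    have hsum := Finset.card_sdiff_add_card_eq_card hQP
    rcases Nat.lt_or_ge (P \ Q).card F1 with h1 | h1
    · have h2 : F2 ≤ Q.card := by omega
      rcases hF2 X Y Q (hX.mono hQP) (fun a ha b hb c hc => hgp a (hQP ha) b (hQP hb) c (hQP hc)) h2
        with ⟨z, hz⟩ | ⟨z, hz⟩
      · exact Or.inl ⟨z, hz.mono hQP⟩
      · have hz0 := hz.1 0 (by omega)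
        have hz1 := hz.1 1 (by omega)
        obtain ⟨w, hw, hwz⟩ := (Finset.mem_filter.1 hz0).2
        have hx01 := hz.2.1 0 1 (by omega) (by omega)
        have hxw := hw.2.1 (k-3) (k-2) (by omega) (by omega)
        have hwP := hw.1 (k-3) (by omega)
        rw [hwz] at hxw
        have hne := hgp (w (k-3)) hwP (z 0) (hQP hz0) (z 1) (hQP hz1)
          (fun h => by rw [h] at hxw; exact lt_irrefl _ hxw)
          (fun h => by rw [h] at hxw; exact lt_asymm hxw hx01)
          (fun h => by rw [h] at hx01; exact lt_irrefl _ hx01)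
        rcases lt_or_gt_of_ne hne with hneg | hpos
        · right
          have := (hz.mono hQP).extend_left (by omega) hwP hxw (by
            have e : Ori X (fun p => - Y p) (w (k-3)) (z 0) (z 1)
              = - Ori X Y (w (k-3)) (z 0) (z 1) := by unfold Ori; ring
            rw [e]; linarith)
          have e : l - 1 + 1 = l := by omega
          rw [e] at this
          exact ⟨_, this⟩
        · left
          have := hw.extend_right (by omega) (hQP hz1) (by
            have : k - 1 - 1 = k - 2 := by omega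
            rw [this, hwz]; exact hx01) (by
            have e1 : k - 1 - 2 = k - 3 := by omega
            have e2 : k - 1 - 1 = k - 2 := by omega
            rw [e1, e2, hwz]; exact hpos)
          have e : k - 1 + 1 = k := by omega
          rw [e] at this
          exact ⟨_, this⟩
    · rcases hF1 X Y (P \ Q) (hX.mono Finset.sdiff_subset)
        (fun a ha b hb c hc => hgp a (Finset.sdiff_subset ha) b (Finset.sdiff_subset hb) c
          (Finset.sdiff_subset hc)) h1 with ⟨z, hz⟩ | ⟨z, hz⟩
      · exfalso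
        have h2 := hz.1 (k-2) (by omega)
        exact (Finset.mem_sdiff.1 h2).2 (Finset.mem_filter.2 ⟨(Finset.mem_sdiff.1 h2).1,
          z, hz.mono Finset.sdiff_subset, rfl⟩)
      · exact Or.inr ⟨z, hz.mono Finset.sdiff_subset⟩

end

/-- general position -/
def GenPos (P : Finset E2) : Prop :=
  ∀ a ∈ P, ∀ b ∈ P, ∀ c ∈ P, a ≠ b → a ≠ c → b ≠ c → orient a b c ≠ 0

/-- convex chain of `K` points, counterclockwise -/
def IsChain' (K : ℕ) (z : ℕ → E2) : Prop :=
  ∀ i j l, i < j → j < l → l < K → 0 < orient (z i) (z j) (z l)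

lemma exists_shear (P : Finset E2) : ∃ t : ℝ, Set.InjOn (fun p : E2 => p 0 + t * p 1) P := by
  classical
  obtain ⟨t, ht⟩ := Infinite.exists_notMem_finset
    ((P ×ˢ P).image (fun q : E2 × E2 => - (q.1 0 - q.2 0) / (q.1 1 - q.2 1)))
  refine ⟨t, fun p hp q hq hpq => ?_⟩
  simp only at hpq
  by_cases h1 : p 1 = q 1
  · have h0 : p 0 = q 0 := by rw [h1] at hpq; linarith
    ext i
    fin_cases i
    · exact h0
    · exact h1
  · exfalso
    apply ht
    rw [Finset.mem_image]
    refine ⟨(p, q), Finset.mem_product.2 ⟨hp, hq⟩, ?_⟩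
    have : p 1 - q 1 ≠ 0 := sub_ne_zero.2 h1
    rw [div_eq_iff this]
    simp only
    linarith

/-- Erdős–Szekeres -/
theorem exists_chain (K : ℕ) : ∃ F : ℕ, ∀ P : Finset E2, GenPos P → F ≤ P.card →
    ∃ z : ℕ → E2, (∀ i, i < K → z i ∈ P) ∧ (∀ i j, i < j → j < K → z i ≠ z j) ∧ IsChain' K z := by
  classical
  obtain ⟨F, hF⟩ := cups_caps (α := E2) (K+2+(K+2)) (K+2) (K+2) rfl (by omega) (by omega)
  refine ⟨F, fun P hgp hc => ?_⟩
  obtain ⟨t, ht⟩ := exists_shear P
  rcases hF (fun p : E2 => p 0 + t * p 1) (fun p => p 1) P ht (by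
    intro a ha b hb c hc hab hac hbc
    have := hgp a ha b hb c hc hab hac hbc
    have e : Ori (fun p : E2 => p 0 + t * p 1) (fun p => p 1) a b c = orient a b c := by
      unfold Ori orient; ring
    rw [e]; exact this) hc with ⟨z, h1, h2, h3⟩ | ⟨z, h1, h2, h3⟩
  · refine ⟨z, fun i hi => h1 i (by omega), ?_, ?_⟩
    · intro i j hij hj heq
      have := h2 i j hij (by omega)
      rw [heq] at this
      exact lt_irrefl _ this
    · intro i j l hij hjl hl
      have := h3 i j l hij hjl (by omega)
      have e : Ori (fun p : E2 => p 0 + t * p 1) (fun p => p 1) (z i) (z j) (z l)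
        = orient (z i) (z j) (z l) := by
        unfold Ori orient; ring
      rwa [e] at this
  · refine ⟨fun i => z (K - i), fun i hi => h1 _ (by omega), ?_, ?_⟩
    · intro i j hij hj heq
      have := h2 (K - j) (K - i) (by omega) (by omega)
      simp only at heq
      rw [heq] at this
      exact lt_irrefl _ this
    · intro i j l hij hjl hl
      have := h3 (K - l) (K - j) (K - i) (by omega) (by omega) (by omega)
      have e : Ori (fun p : E2 => p 0 + t * p 1) (fun p => - p 1) (z (K-l)) (z (K-j)) (z (K-i))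
        = orient (z (K-i)) (z (K-j)) (z (K-l)) := by
        unfold Ori orient; ring
      rwa [e] at this

end Pool.Agent.Lib.Pec6744
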