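import Pool.Agent.Lib.Pec6744.Poset

/-!
# Families of edges in the plane: large independent subfamilies
-/

namespace Pool.Agent.Lib.Pec6744

/-- the Euclidean plane -/
abbrev E2 := EuclideanSpace ℝ (Fin 2)

/-- twice the signed area of the triangle `a b c` -/
noncomputable def orient (a b c : E2) : ℝ := (b 0 - a 0) * (c 1 - a 1) - (b 1 - a 1) * (c 0 - a 0)

lemma orient_self_left (a b : E2) : orient a b a = 0 := by unfold orient; ring
lemma orient_self_right (a b : E2) : orient a b b = 0 := by unfold orient; ring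

/-- edge `f` meets the closed half plane to the left of edge `e` -/
def Meets (f e : E2 × E2) : Prop := 0 ≤ orient e.1 e.2 f.1 ∨ 0 ≤ orient e.1 e.2 f.2

/-- independent edges -/
def Indep (e f : E2 × E2) : Prop := ¬ Meets e f ∧ ¬ Meets f e

section base
variable (o : E2 × E2)

noncomputable def tt (p : E2) : ℝ := - orient o.1 o.2 p
noncomputable def uu (p : E2) : ℝ :=
  (p 0 - o.1 0) * (o.2 0 - o.1 0) + (p 1 - o.1 1) * (o.2 1 - o.1 1)
noncomputable def nn : ℝ := (o.2 0 - o.1 0)^2 + (o.2 1 - o.1 1)^2
noncomputable def XX (p : E2) : ℝ := uu o p / tt o p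
noncomputable def YY (p : E2) : ℝ := - 1 / tt o p
noncomputable def gam (f : E2 × E2) : ℝ := - orient f.1 f.2 o.1
noncomputable def mm (f : E2 × E2) : ℝ :=
  - ((f.2 0 - f.1 0) * (o.2 1 - o.1 1) - (f.2 1 - f.1 1) * (o.2 0 - o.1 0)) / (nn o * gam o f)
noncomputable def cc (f : E2 × E2) : ℝ :=
  ((f.2 0 - f.1 0) * (o.2 0 - o.1 0) + (f.2 1 - f.1 1) * (o.2 1 - o.1 1)) / (nn o * gam o f)

lemma key_identity (f : E2 × E2) (p : E2) (ht : 0 < tt o p) (hg : 0 < gam o f) (hn : 0 < nn o) :
    orient f.1 f.2 p = tt o p * gam o f * (YY o p - mm o f * XX o p - cc o f) := by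
  unfold YY XX mm cc
  field_simp
  unfold tt uu nn gam orient
  ring

end base

/-- the flags attached to a family of edges, seen from the base edge `o` -/
noncomputable def flags (o : E2 × E2) : Flags (E2 × E2) where
  m := mm o
  c := cc o
  xa := fun f => min (XX o f.1) (XX o f.2)
  xb := fun f => max (XX o f.1) (XX o f.2)
  hx := fun f => min_le_max

lemma nn_pos {o : E2 × E2} {p : E2} (h : 0 < tt o p) : 0 < nn o := by
  by_contra hcon
  have hcon := not_lt.1 hcon
  unfold nn at hcon
  have h1 : (o.2 0 - o.1 0) = 0 := by nlinarith [sq_nonneg (o.2 0 - o.1 0), sq_nonneg (o.2 1 - o.1 1)]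
  have h2 : (o.2 1 - o.1 1) = 0 := by nlinarith [sq_nonneg (o.2 0 - o.1 0), sq_nonneg (o.2 1 - o.1 1)]
  unfold tt orient at h
  rw [h1, h2] at h
  simp at h

lemma Indep.tt_pos {o f : E2 × E2} (h : Indep o f) : 0 < tt o f.1 ∧ 0 < tt o f.2 ∧ 0 < gam o f := by
  obtain ⟨h1, h2⟩ := h
  unfold Meets at h1 h2
  push Not at h1 h2
  unfold tt gam
  refine ⟨by linarith [h2.1], by linarith [h2.2], by linarith [h1.1]⟩

lemma Y_eq {o f : E2 × E2} (h : Indep o f) :
    YY o f.1 = mm o f * XX o f.1 + cc o f ∧ YY o f.2 = mm o f * XX o f.2 + cc o f := by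
  obtain ⟨h1, h2, h3⟩ := h.tt_pos
  have hn := nn_pos h1
  have k1 := key_identity o f f.1 h1 h3 hn
  have k2 := key_identity o f f.2 h2 h3 hn
  rw [orient_self_left] at k1
  rw [orient_self_right] at k2
  have p1 : tt o f.1 * gam o f ≠ 0 := (mul_pos h1 h3).ne'
  have p2 : tt o f.2 * gam o f ≠ 0 := (mul_pos h2 h3).ne'
  have q1 := (mul_eq_zero.1 k1.symm).resolve_left p1
  have q2 := (mul_eq_zero.1 k2.symm).resolve_left p2
  constructor <;> linarith

lemma flags_meets {o f g : E2 × E2} (hf : Indep o f) (hg : Indep o g) :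
    (flags o).Meets g f ↔ Meets g f := by
  obtain ⟨f1, f2, f3⟩ := hf.tt_pos
  obtain ⟨g1, g2, g3⟩ := hg.tt_pos
  have hn := nn_pos f1
  obtain ⟨y1, y2⟩ := Y_eq hg
  have k1 := key_identity o f g.1 g1 f3 hn
  have k2 := key_identity o f g.2 g2 f3 hn
  have p1 : 0 < tt o g.1 * gam o f := (mul_pos g1 f3)
  have p2 : 0 < tt o g.2 * gam o f := (mul_pos g2 f3)
  have e1 : (0 ≤ orient f.1 f.2 g.1) ↔ cc o f ≤ cc o g + XX o g.1 * (mm o g - mm o f) := by
    rw [k1, mul_nonneg_iff_of_pos_left p1]
    constructor <;> intro h <;> nlinarith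
  have e2 : (0 ≤ orient f.1 f.2 g.2) ↔ cc o f ≤ cc o g + XX o g.2 * (mm o g - mm o f) := by
    rw [k2, mul_nonneg_iff_of_pos_left p2]
    constructor <;> intro h <;> nlinarith
  have hmax : max (min (XX o g.1) (XX o g.2) * (mm o g - mm o f))
      (max (XX o g.1) (XX o g.2) * (mm o g - mm o f)) =
      max (XX o g.1 * (mm o g - mm o f)) (XX o g.2 * (mm o g - mm o f)) := by
    rcases le_total (XX o g.1) (XX o g.2) with h | h
    · rw [min_eq_left h, max_eq_right h]
    · rw [min_eq_right h, max_eq_left h, max_comm]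
  unfold Flags.Meets Flags.f Meets
  rw [e1, e2]
  show cc o f ≤ cc o g + max (min (XX o g.1) (XX o g.2) * (mm o g - mm o f))
      (max (XX o g.1) (XX o g.2) * (mm o g - mm o f)) ↔ _
  rw [hmax]
  rcases le_total (XX o g.1 * (mm o g - mm o f)) (XX o g.2 * (mm o g - mm o f)) with h | h
  · rw [max_eq_right h]
    constructor
    · intro h'; right; exact h'
    · rintro (h' | h') <;> linarith
  · rw [max_eq_left h]
    constructor
    · intro h'; left; exact h'
    · rintro (h' | h') <;> linarith

open Classical in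
/-- Large independent families of edges. -/
theorem exists_indep_edges (E : Finset (E2 × E2)) (n h : ℕ)
    (hE : ∀ e ∈ E, (E.filter (fun f => Meets f e)).card ≤ n) (hcard : n * (h + 2) < E.card) :
    ∃ C : Finset (E2 × E2), C ⊆ E ∧ C.card = h + 2 ∧ ∀ e ∈ C, ∀ f ∈ C, e ≠ f → Indep e f := by
  -- choose the base edge
  have hbase : ∃ e ∈ E, (E.filter (fun f => Meets e f)).card ≤ n := by
    by_contra hcon
    push Not at hcon
    have h1 : ∑ e ∈ E, (E.filter (fun f => Meets f e)).card ≤ E.card * n := by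
      calc ∑ e ∈ E, (E.filter (fun f => Meets f e)).card ≤ ∑ e ∈ E, n := Finset.sum_le_sum hE
        _ = E.card * n := by rw [Finset.sum_const, smul_eq_mul]
    have h2 : ∑ e ∈ E, (E.filter (fun f => Meets f e)).card
        = ∑ f ∈ E, (E.filter (fun e => Meets f e)).card := by
      simp only [Finset.card_filter]
      exact Finset.sum_comm
    have h3 : E.card * (n + 1) ≤ ∑ f ∈ E, (E.filter (fun e => Meets f e)).card := by
      calc E.card * (n + 1) = ∑ e ∈ E, (n + 1) := by rw [Finset.sum_const, smul_eq_mul]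
        _ ≤ _ := Finset.sum_le_sum (fun e he => hcon e he)
    have h4 : 0 < E.card := by omega
    nlinarith
  obtain ⟨o, ho, hon⟩ := hbase
  set I := E.filter (fun f => Indep o f) with hI
  have hIcard : n * h < I.card := by
    have hunion : E ⊆ I ∪ (E.filter (fun f => Meets o f) ∪ E.filter (fun f => Meets f o)) := by
      intro f hf
      by_cases h1 : Indep o f
      · exact Finset.mem_union_left _ (Finset.mem_filter.2 ⟨hf, h1⟩)
      · apply Finset.mem_union_right
        unfold Indep at h1
        rw [not_and_or, not_not, not_not] at h1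
        rcases h1 with h1 | h1
        · exact Finset.mem_union_left _ (Finset.mem_filter.2 ⟨hf, h1⟩)
        · exact Finset.mem_union_right _ (Finset.mem_filter.2 ⟨hf, h1⟩)
    have hc := (Finset.card_le_card hunion).trans (Finset.card_union_le _ _)
    have hc2 := Finset.card_union_le (E.filter (fun f => Meets o f)) (E.filter (fun f => Meets f o))
    have := hE o ho
    have h5 : n * (h + 2) = n * h + 2 * n := by ring
    omega
  obtain ⟨C, hCI, hCc, hCi, -⟩ := (flags o).exists_indep n h I (by
    intro i hi S hS hm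
    have hiE := (Finset.mem_filter.1 hi).1
    have hio := (Finset.mem_filter.1 hi).2
    refine (Finset.card_le_card ?_).trans (hE i hiE)
    intro j hj
    have hjI := Finset.mem_filter.1 (hS hj)
    exact Finset.mem_filter.2 ⟨hjI.1, (flags_meets hio hjI.2).1 (hm j hj)⟩) hIcard
  have hoI : o ∉ C := by
    intro hmem
    have := (Finset.mem_filter.1 (hCI hmem)).2
    apply this.1
    left
    rw [orient_self_left]
  refine ⟨insert o C, ?_, ?_, ?_⟩
  · exact Finset.insert_subset ho (hCI.trans (Finset.filter_subset _ _))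
  · rw [Finset.card_insert_of_notMem hoI, hCc]
  · intro e he f hf hef
    rw [Finset.mem_insert] at he hf
    rcases he with rfl | he <;> rcases hf with rfl | hf
    · exact absurd rfl hef
    · exact (Finset.mem_filter.1 (hCI hf)).2
    · have := (Finset.mem_filter.1 (hCI he)).2
      exact ⟨this.2, this.1⟩
    · have h1 := (Finset.mem_filter.1 (hCI he)).2
      have h2 := (Finset.mem_filter.1 (hCI hf)).2
      obtain ⟨h3, h4⟩ := hCi e he f hf hef
      constructor
      · intro h5; exact h4 ((flags_meets h2 h1).2 h5)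
      · intro h5; exact h3 ((flags_meets h1 h2).2 h5)

end Pool.Agent.Lib.Pec6744
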