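import Pool.Agent.Lib.Pec6744.EvenChain
import Pool.Agent.Lib.Pec6744.Main

/-!
# A chain of `m + 1` edges and an extreme point give `2 m + 2` hull vertices
-/

set_option autoImplicit false

namespace Pool.Agent.Lib.Pec6744

open Finset Classical

/-- the line of an edge in the coordinates of the base line, for all points of the plane -/
lemma key_identity' (o f : E2 × E2) (p : E2) (hg : 0 < gam o f) (hn : 0 < nn o) :
    orient f.1 f.2 p = - gam o f * (1 + mm o f * uu o p + cc o f * tt o p) := by
  unfold mm cc
  field_simp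
  unfold tt uu nn gam orient
  ring

/-- beyond the base line the middle one of three independent edges lies outside -/
lemma middle_neg {o e f y : E2 × E2} (he : PosF o e) (hf : PosF o f) (hy : PosF o y)
    (h1 : mm o f < mm o y) (h2 : mm o y < mm o e)
    (hye : orient e.1 e.2 y.1 < 0) (hyf : orient f.1 f.2 y.1 < 0) {q : E2}
    (hq : tt o q ≤ 0) (hqe : orient e.1 e.2 q < 0) (hqf : orient f.1 f.2 q < 0) :
    orient y.1 y.2 q < 0 := by
  have hn := nn_pos he.1
  have ge := he.2.2
  have gf := hf.2.2
  have gy := hy.2.2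
  have hyy := orient_self_left y.1 y.2
  rw [key_identity' o e _ ge hn] at hye hqe
  rw [key_identity' o f _ gf hn] at hyf hqf
  rw [key_identity' o y _ gy hn] at hyy ⊢
  have ht := hy.1
  set t1 := tt o y.1
  set u1 := uu o y.1
  set t := tt o q
  set u := uu o q
  have a1 : 0 < 1 + mm o e * u1 + cc o e * t1 := by
    by_contra hcon
    have := mul_nonneg ge.le (by linarith : 0 ≤ -(1 + mm o e * u1 + cc o e * t1))
    linarith
  have a2 : 0 < 1 + mm o f * u1 + cc o f * t1 := by
    by_contra hcon
    have := mul_nonneg gf.le (by linarith : 0 ≤ -(1 + mm o f * u1 + cc o f * t1))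
    linarith
  have a3 : 1 + mm o y * u1 + cc o y * t1 = 0 := by
    have h3 : gam o y * (1 + mm o y * u1 + cc o y * t1) = 0 := by linarith
    exact (mul_eq_zero.1 h3).resolve_left gy.ne'
  have b1 : 0 < 1 + mm o e * u + cc o e * t := by
    by_contra hcon
    have := mul_nonneg ge.le (by linarith : 0 ≤ -(1 + mm o e * u + cc o e * t))
    linarith
  have b2 : 0 < 1 + mm o f * u + cc o f * t := by
    by_contra hcon
    have := mul_nonneg gf.le (by linarith : 0 ≤ -(1 + mm o f * u + cc o f * t))
    linarith
  -- the convex combination, cleared of denominators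
  set α := mm o y - mm o f with hα
  set β := mm o e - mm o y with hβ
  have hα0 : 0 < α := by linarith
  have hβ0 : 0 < β := by linarith
  have hm : (α + β) * mm o y = α * mm o e + β * mm o f := by rw [hα, hβ]; ring
  have hd : 0 < (α * cc o e + β * cc o f - (α + β) * cc o y) * t1 := by
    have e1 : (α * cc o e + β * cc o f - (α + β) * cc o y) * t1
        = α * (1 + mm o e * u1 + cc o e * t1) + β * (1 + mm o f * u1 + cc o f * t1)
          - (α + β) * (1 + mm o y * u1 + cc o y * t1) := by
      linear_combination (- u1) * hm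
    rw [e1, a3, mul_zero, sub_zero]
    exact add_pos (mul_pos hα0 a1) (mul_pos hβ0 a2)
  have hd' : 0 < α * cc o e + β * cc o f - (α + β) * cc o y := by
    by_contra hcon
    have := mul_nonneg (by linarith : 0 ≤ -(α * cc o e + β * cc o f - (α + β) * cc o y)) ht.le
    linarith
  have hfin : 0 < (α + β) * (1 + mm o y * u + cc o y * t) := by
    have e1 : (α + β) * (1 + mm o y * u + cc o y * t)
        = α * (1 + mm o e * u + cc o e * t) + β * (1 + mm o f * u + cc o f * t)
          + (α * cc o e + β * cc o f - (α + β) * cc o y) * (-t) := by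
      linear_combination u * hm
    rw [e1]
    have h3 := mul_nonneg hd'.le (by linarith : 0 ≤ -t)
    have h4 := mul_pos hα0 b1
    have h5 := mul_pos hβ0 b2
    linarith
  have hfin' : 0 < 1 + mm o y * u + cc o y * t := by
    by_contra hcon
    have := mul_nonneg (by linarith : 0 ≤ α + β)
      (by linarith : 0 ≤ -(1 + mm o y * u + cc o y * t))
    linarith
  have := mul_pos gy hfin'
  linarith

/-- From `m + 1` independent edges with few points on their inner sides and a point `o.1` which is
extreme with respect to them we get a large subset with `2 m + 2` hull vertices. -/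
theorem of_indep_top {P : Finset E2} {m n D : ℕ} (hm : 2 ≤ m) (o : E2 × E2) (ho : o.1 ≠ o.2)
    (hoP : o.1 ∈ P) (C : Finset (E2 × E2)) (hCc : C.card = m + 1)
    (hCP : ∀ e ∈ C, e.1 ∈ P ∧ e.2 ∈ P ∧ e.1 ≠ e.2)
    (hCi : ∀ e ∈ C, ∀ f ∈ C, e ≠ f → Indep e f) (hCo : ∀ e ∈ C, PosF o e)
    (hD : ∀ e ∈ C, (P.filter (fun p => 0 ≤ orient e.1 e.2 p)).card ≤ D)
    (hn : 2 * m + 2 ≤ n) (hN : n + m * D ≤ P.card) :
    ∃ T : Finset E2, T ⊆ P ∧ T.card = n ∧ 2 * m + 2 ≤ (extPts T).ncard := by
  -- slopes are distinct
  have hslope : ∀ e ∈ C, ∀ f ∈ C, e ≠ f → mm o e ≠ mm o f := by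
    intro e he f hf hef
    have h1 := hCi e he f hf hef
    have h2 : (flags o).Indep e f := by
      constructor
      · intro h3; exact h1.2 ((flags_meets' (hCo e he) (hCo f hf)).1 h3)
      · intro h3; exact h1.1 ((flags_meets' (hCo f hf) (hCo e he)).1 h3)
    rcases (flags o).indep_iff.1 h2 with h3 | h3
    · exact (ne_of_gt h3.1)
    · exact (ne_of_lt h3.1)
  have hCne : C.Nonempty := by rw [← Finset.card_pos]; omega
  obtain ⟨ep, hep, hepmax⟩ := C.exists_max_image (mm o) hCne
  obtain ⟨em, hem, hemmin⟩ := C.exists_min_image (mm o) hCne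
  have hex : ∃ y ∈ C, y ≠ ep ∧ y ≠ em := by
    by_contra hcon
    push Not at hcon
    have hsub : C ⊆ {ep, em} := by
      intro y hy
      by_cases h : y = ep
      · rw [h]; exact Finset.mem_insert_self _ _
      · rw [hcon y hy h]
        exact Finset.mem_insert_of_mem (Finset.mem_singleton_self _)
    have h1 := (Finset.card_le_card hsub).trans Finset.card_le_two
    omega
  obtain ⟨y, hy, hyp, hym⟩ := hex
  have hs1 : mm o em < mm o y := lt_of_le_of_ne (hemmin y hy) (hslope em hem y hy hym.symm)
  have hs2 : mm o y < mm o ep := lt_of_le_of_ne (hepmax y hy) (hslope y hy ep hep hyp)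
  set C' := C.erase y with hC'
  have hC'c : C'.card = m := by rw [hC', Finset.card_erase_of_mem hy, hCc]; rfl
  have hC'C : C' ⊆ C := Finset.erase_subset _ _
  have hepC' : ep ∈ C' := Finset.mem_erase.2 ⟨hyp.symm, hep⟩
  have hemC' : em ∈ C' := Finset.mem_erase.2 ⟨hym.symm, hem⟩
  set U : Finset E2 := C'.image Prod.fst ∪ C'.image Prod.snd with hU
  -- negativity
  have hneg : ∀ e ∈ C, ∀ f ∈ C, e ≠ f → orient e.1 e.2 f.1 < 0 ∧ orient e.1 e.2 f.2 < 0 := by
    intro e he f hf hef
    have := (hCi e he f hf hef).2
    unfold Meets at this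
    push Not at this
    exact this
  have hUcard : U.card = 2 * m := by
    rw [hU, Finset.card_union_of_disjoint, Finset.card_image_of_injOn, Finset.card_image_of_injOn,
      hC'c]
    · ring
    · intro e he f hf hef
      by_contra hne
      have := (hneg e (hC'C he) f (hC'C hf) hne).2
      rw [← hef, orient_self_right] at this
      exact lt_irrefl _ this
    · intro e he f hf hef
      by_contra hne
      have := (hneg e (hC'C he) f (hC'C hf) hne).1
      rw [← hef, orient_self_left] at this
      exact lt_irrefl _ this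
    · rw [Finset.disjoint_left]
      intro p hp hp'
      obtain ⟨e, he, rfl⟩ := Finset.mem_image.1 hp
      obtain ⟨f, hf, hef⟩ := Finset.mem_image.1 hp'
      by_cases h : e = f
      · subst h
        exact (hCP e (hC'C he)).2.2 hef.symm
      · have := (hneg e (hC'C he) f (hC'C hf) h).2
        rw [hef, orient_self_left] at this
        exact lt_irrefl _ this
  have hUmem : ∀ p ∈ U, ∃ e ∈ C', p = e.1 ∨ p = e.2 := by
    intro p hp
    rcases Finset.mem_union.1 hp with h | h
    · obtain ⟨e, he, rfl⟩ := Finset.mem_image.1 h; exact ⟨e, he, Or.inl rfl⟩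
    · obtain ⟨e, he, rfl⟩ := Finset.mem_image.1 h; exact ⟨e, he, Or.inr rfl⟩
  have hUo : ∀ p ∈ U, orient o.1 o.2 p < 0 := by
    intro p hp
    obtain ⟨e, he, h1⟩ := hUmem p hp
    obtain ⟨h2, h3, -⟩ := hCo e (hC'C he)
    unfold tt at h2 h3
    rcases h1 with rfl | rfl
    · linarith
    · linarith
  -- the large set
  set W : Finset E2 := P.filter (fun p => ∀ e ∈ C', orient e.1 e.2 p < 0) with hW
  have hWcard : P.card ≤ W.card + m * D := by
    have hsub : P ⊆ W ∪ C'.biUnion (fun e => P.filter (fun p => 0 ≤ orient e.1 e.2 p)) := by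
      intro p hp
      by_cases h : ∀ e ∈ C', orient e.1 e.2 p < 0
      · exact Finset.mem_union_left _ (Finset.mem_filter.2 ⟨hp, h⟩)
      · push Not at h
        obtain ⟨e, he, he'⟩ := h
        exact Finset.mem_union_right _ (Finset.mem_biUnion.2 ⟨e, he, Finset.mem_filter.2 ⟨hp, he'⟩⟩)
    have h1 := (Finset.card_le_card hsub).trans (Finset.card_union_le _ _)
    have h2 : (C'.biUnion (fun e => P.filter (fun p => 0 ≤ orient e.1 e.2 p))).card ≤ m * D := by
      rw [← hC'c]
      apply Finset.card_biUnion_le_card_mul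
      intro e he
      exact hD e (hC'C he)
    omega
  have hyW : y.1 ∈ W := by
    refine Finset.mem_filter.2 ⟨(hCP y hy).1, fun e he => ?_⟩
    exact (hneg e (hC'C he) y hy (Finset.ne_of_mem_erase he)).1
  have hoW : o.1 ∈ W := by
    refine Finset.mem_filter.2 ⟨hoP, fun e he => ?_⟩
    have h2 := (hCo e (hC'C he)).2.2
    unfold gam at h2
    linarith
  have hVsub : insert o.1 (insert y.1 U) ⊆ W ∪ U :=
    Finset.insert_subset (Finset.mem_union_left _ hoW)
      (Finset.insert_subset (Finset.mem_union_left _ hyW) Finset.subset_union_right)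
  have hVc : (insert o.1 (insert y.1 U)).card ≤ 2 * m + 2 := by
    have h1 := Finset.card_insert_le o.1 (insert y.1 U)
    have h2 := Finset.card_insert_le y.1 U
    omega
  obtain ⟨T, hVT, hTW, hTn⟩ := Finset.exists_subsuperset_card_eq hVsub (by omega)
    (show n ≤ (W ∪ U).card by
      have := Finset.card_le_card (Finset.subset_union_left (s₁ := W) (s₂ := U))
      omega)
  have hUP : U ⊆ P := by
    intro p hp
    obtain ⟨e, he, h1⟩ := hUmem p hp
    rcases h1 with rfl | rfl
    · exact (hCP e (hC'C he)).1
    · exact (hCP e (hC'C he)).2.1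
  have hTP : T ⊆ P := hTW.trans (Finset.union_subset (Finset.filter_subset _ _) hUP)
  have hUT : U ⊆ T := ((Finset.subset_insert _ _).trans (Finset.subset_insert _ _)).trans hVT
  have hoT : o.1 ∈ T := hVT (Finset.mem_insert_self _ _)
  have hyT : y.1 ∈ T := hVT (Finset.mem_insert_of_mem (Finset.mem_insert_self _ _))
  refine ⟨T, hTP, hTn, ?_⟩
  have hedge : ∀ e ∈ C', ∀ p ∈ T, p ≠ e.2 → p ≠ e.1 → 0 < orient e.2 e.1 p := by
    intro e he p hp h2 h1
    rw [orient_swap]
    have : orient e.1 e.2 p < 0 := by
      rcases Finset.mem_union.1 (hTW hp) with h | h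
      · exact (Finset.mem_filter.1 h).2 e he
      · obtain ⟨f, hf, h3⟩ := hUmem p h
        have hne : e ≠ f := by
          rintro rfl
          rcases h3 with h3 | h3
          · exact h1 h3
          · exact h2 h3
        rcases h3 with rfl | rfl
        · exact (hneg e (hC'C he) f (hC'C hf) hne).1
        · exact (hneg e (hC'C he) f (hC'C hf) hne).2
    linarith
  have hUext : (U : Set E2) ⊆ extPts T := by
    intro p hp
    obtain ⟨e, he, h1⟩ := hUmem p hp
    have hne := (hCP e (hC'C he)).2.2
    rcases h1 with rfl | rfl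
    · exact ext_of_edge' (hUT hp) hne.symm (hedge e he)
    · exact ext_of_edge (hUT hp) hne.symm (hedge e he)
  -- the vertex beyond the missing edge
  obtain ⟨q, hq, hqmax⟩ := exists_ext_max (T := T) ⟨y.1, hyT⟩ (hCP y hy).2.2
  have hqy : 0 ≤ orient y.1 y.2 q := by
    have h2 := hqmax y.1 hyT
    rwa [orient_self_left] at h2
  have hqU : q ∉ U := by
    intro h
    obtain ⟨e, he, h1⟩ := hUmem q h
    have h3 := hneg y hy e (hC'C he) (Finset.ne_of_mem_erase he).symm
    rcases h1 with rfl | rfl
    · linarith [h3.1]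
    · linarith [h3.2]
  -- the vertex beyond the base line
  obtain ⟨r, hr, hrmax⟩ := exists_ext_max (T := T) ⟨o.1, hoT⟩ ho
  have hro : 0 ≤ orient o.1 o.2 r := by
    have h2 := hrmax o.1 hoT
    rwa [orient_self_left] at h2
  have hrU : r ∉ U := by
    intro h
    have := hUo r h
    linarith
  have hrT : r ∈ T := hr.1
  have hrW : r ∈ W := by
    rcases Finset.mem_union.1 (hTW hrT) with h | h
    · exact h
    · exact absurd h hrU
  have hrneg := (Finset.mem_filter.1 hrW).2
  have hry : orient y.1 y.2 r < 0 := by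
    refine middle_neg (hCo ep hep) (hCo em hem) (hCo y hy) hs1 hs2
      (hneg ep hep y hy hyp.symm).1 (hneg em hem y hy hym.symm).1 ?_ (hrneg ep hepC')
      (hrneg em hemC')
    unfold tt
    linarith
  have hqr : q ≠ r := by
    rintro rfl
    linarith
  have hsub : ((insert q (insert r U) : Finset E2) : Set E2) ⊆ extPts T := by
    intro p hp
    rw [Finset.coe_insert, Finset.coe_insert] at hp
    rcases hp with rfl | rfl | hp
    · exact hq
    · exact hr
    · exact hUext hp
  have hfin := Set.ncard_le_ncard hsub (extPts_finite T)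
  have hqI : q ∉ insert r U := by
    intro h
    rcases Finset.mem_insert.1 h with h | h
    · exact hqr h
    · exact hqU h
  rw [Set.ncard_coe_finset, Finset.card_insert_of_notMem hqI, Finset.card_insert_of_notMem hrU,
    hUcard] at hfin
  exact hfin

end Pool.Agent.Lib.Pec6744
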