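import Pool.Agent.Lib.Pec6744.Edges

/-!
# Chains of edges seen from an extreme endpoint

Weighted version of the chain theorem of `Poset.lean` for the dual relation, and its application
to the edges which leave an extreme endpoint `a` of the family outside.
-/

set_option autoImplicit false

namespace Pool.Agent.Lib.Pec6744

open Finset Classical

/-- some flag of a pairwise dependent family meets all of them -/
theorem Flags.exists_mirror {ι : Type*} [DecidableEq ι] (F : Flags ι) :
    ∀ n : ℕ, ∀ A : Finset ι, A.card = n → A.Nonempty → (∀ i ∈ A, ∀ j ∈ A, ¬ F.Indep i j) →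
      ∃ i ∈ A, ∀ j ∈ A, F.Meets i j := by
  intro n
  induction n with
  | zero =>
    intro A hA hne
    rw [Finset.card_eq_zero] at hA
    rw [hA] at hne
    exact absurd hne Finset.not_nonempty_empty
  | succ n ih =>
    intro A hA hne hd
    obtain ⟨i, hi, habs⟩ := F.exists_absorber _ A rfl hne hd
    by_cases hA1 : (A.erase i).Nonempty
    · obtain ⟨y, hy, hyabs⟩ := ih (A.erase i) (by rw [Finset.card_erase_of_mem hi, hA]; rfl) hA1
        (fun a ha b hb => hd a (Finset.mem_of_mem_erase ha) b (Finset.mem_of_mem_erase hb))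
      refine ⟨y, Finset.mem_of_mem_erase hy, fun j hj => ?_⟩
      by_cases hji : j = i
      · subst hji; exact habs y (Finset.mem_of_mem_erase hy)
      · exact hyabs j (Finset.mem_erase.2 ⟨hji, hj⟩)
    · refine ⟨i, hi, fun j hj => ?_⟩
      have : j = i := by
        by_contra hji
        exact hA1 ⟨j, Finset.mem_erase.2 ⟨hji, hj⟩⟩
      rw [this]
      exact F.meets_self i

/-- weighted chains -/
theorem Flags.exists_indep_w {ι : Type*} [DecidableEq ι] (F : Flags ι) (la : ι → ℝ) :
    ∀ h : ℕ, ∀ I : Finset ι, (∀ i ∈ I, 0 ≤ la i) →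
      (∀ i ∈ I, ∀ S : Finset ι, S ⊆ I → (∀ j ∈ S, F.Meets i j) → ∑ j ∈ S, la j ≤ 1) →
      (h : ℝ) < ∑ i ∈ I, la i →
      ∃ C : Finset ι, C ⊆ I ∧ C.card = h + 1 ∧ (∀ i ∈ C, ∀ j ∈ C, i ≠ j → F.Indep i j) ∧
        ∃ b ∈ C, ∀ j ∈ C, j ≠ b → F.Lt b j := by
  intro h
  induction h with
  | zero =>
    intro I _ _ hI
    have : I.Nonempty := by
      by_contra hcon
      rw [Finset.not_nonempty_iff_eq_empty] at hcon
      rw [hcon] at hI
      simp at hI
    obtain ⟨b, hb⟩ := this
    refine ⟨{b}, by simpa using hb, by simp, ?_, b, by simp, ?_⟩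
    · intro i hi j hj hij
      rw [Finset.mem_singleton] at hi hj
      exact absurd (hi.trans hj.symm) hij
    · intro j hj hjb
      rw [Finset.mem_singleton] at hj
      exact absurd hj hjb
  | succ h ih =>
    intro I hI0 hI hcard
    set A := I.filter (fun i => ∀ j ∈ I, ¬ F.Lt j i) with hA
    have hAcard : ∑ j ∈ A, la j ≤ 1 := by
      rcases A.eq_empty_or_nonempty with h0 | h0
      · rw [h0]; simp
      · obtain ⟨i, hi, habs⟩ := F.exists_mirror _ A rfl h0 (by
          intro i hi j hj hind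
          rcases F.indep_iff.1 hind with h1 | h1
          · exact (Finset.mem_filter.1 hj).2 i (Finset.mem_filter.1 hi).1 h1
          · exact (Finset.mem_filter.1 hi).2 j (Finset.mem_filter.1 hj).1 h1)
        exact hI i (Finset.mem_filter.1 hi).1 A (Finset.filter_subset _ _) habs
    have hsub : I \ A ⊆ I := Finset.sdiff_subset
    have hc2 : (h : ℝ) < ∑ j ∈ I \ A, la j := by
      have h1 : ∑ j ∈ I \ A, la j + ∑ j ∈ A, la j = ∑ j ∈ I, la j :=
        Finset.sum_sdiff (Finset.filter_subset _ _)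
      push_cast at hcard
      linarith
    obtain ⟨C, hC, hCc, hCi, b, hb, hbl⟩ := ih (I \ A) (fun i hi => hI0 i (hsub hi))
      (fun i hi S hS hm => hI i (hsub hi) S (hS.trans hsub) hm) hc2
    have hbI : b ∈ I := hsub (hC hb)
    have hbA : b ∉ A := (Finset.mem_sdiff.1 (hC hb)).2
    have : ∃ b' ∈ I, F.Lt b' b := by
      by_contra hcon
      push Not at hcon
      exact hbA (Finset.mem_filter.2 ⟨hbI, hcon⟩)
    obtain ⟨b', hb'I, hb'⟩ := this
    have hlt : ∀ j ∈ C, F.Lt b' j := by
      intro j hj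
      by_cases hjb : j = b
      · subst hjb; exact hb'
      · exact hb'.trans (hbl j hj hjb)
    have hb'C : b' ∉ C := fun hmem => Flags.Lt.irrefl F b' (hlt b' hmem)
    refine ⟨insert b' C, ?_, ?_, ?_, b', Finset.mem_insert_self _ _, ?_⟩
    · exact Finset.insert_subset hb'I (hC.trans hsub)
    · rw [Finset.card_insert_of_notMem hb'C, hCc]
    · intro i hi j hj hij
      rw [Finset.mem_insert] at hi hj
      rcases hi with rfl | hi <;> rcases hj with rfl | hj
      · exact absurd rfl hij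
      · exact (hlt j hj).2
      · exact (hlt i hi).2.symm
      · exact hCi i hi j hj hij
    · intro j hj hjb
      rw [Finset.mem_insert] at hj
      rcases hj with rfl | hj
      · exact absurd rfl hjb
      · exact hlt j hj

/-- the edge `f` is a flag seen from the base line `o` -/
def PosF (o f : E2 × E2) : Prop := 0 < tt o f.1 ∧ 0 < tt o f.2 ∧ 0 < gam o f

lemma Y_eq' {o f : E2 × E2} (h : PosF o f) :
    YY o f.1 = mm o f * XX o f.1 + cc o f ∧ YY o f.2 = mm o f * XX o f.2 + cc o f := by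
  obtain ⟨h1, h2, h3⟩ := h
  have hn := nn_pos h1
  have k1 := key_identity o f f.1 h1 h3 hn
  have k2 := key_identity o f f.2 h2 h3 hn
  rw [orient_self_left] at k1
  rw [orient_self_right] at k2
  have p1 : tt o f.1 * gam o f ≠ 0 := (mul_pos h1 h3).ne'
  have p2 : tt o f.2 * gam o f ≠ 0 := (mul_pos h2 h3).ne'
  have q1 := (mul_eq_zero.1 k1.symm).resolve_left p1
  have q2 := (mul_eq_zero.1 k2.symm).resolve_left p2
  constructor <;> linarith

lemma flags_meets' {o f g : E2 × E2} (hf : PosF o f) (hg : PosF o g) :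
    (flags o).Meets g f ↔ Meets g f := by
  obtain ⟨f1, f2, f3⟩ := hf
  obtain ⟨y1, y2⟩ := Y_eq' hg
  obtain ⟨g1, g2, g3⟩ := hg
  have hn := nn_pos f1
  have k1 := key_identity o f g.1 g1 f3 hn
  have k2 := key_identity o f g.2 g2 f3 hn
  have p1 : 0 < tt o g.1 * gam o f := (mul_pos g1 f3)
  have p2 : 0 < tt o g.2 * gam o f := (mul_pos g2 f3)
  have e1 : (0 ≤ orient f.1 f.2 g.1) ↔ cc o f ≤ cc o g + XX o g.1 * (mm o g - mm o f) := by
    rw [k1, mul_nonneg_iff_of_pos_left p1]
    constructor <;> intro h <;> nlinarith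
  have e2 : (0 ≤ orient f.1 f.2 g.2) ↔ cc o f ≤ cc o g + XX o g.2 * (mm o g - mm o f) := by
    rw [k2, mul_nonneg_iff_of_pos_left p2]
    constructor <;> intro h <;> nlinarith
  have hmax : max (min (XX o g.1) (XX o g.2) * (mm o g - mm o f))
      (max (XX o g.1) (XX o g.2) * (mm o g - mm o f)) =
      max (XX o g.1 * (mm o g - mm o f)) (XX o g.2 * (mm o g - mm o f)) := by
    rcases le_total (XX o g.1) (XX o g.2) with h | h
    · rw [min_eq_left h, max_eq_right h]
    · rw [min_eq_right h, max_eq_left h, max_comm]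
  unfold Flags.Meets Flags.f Meets
  rw [e1, e2]
  show cc o f ≤ cc o g + max (min (XX o g.1) (XX o g.2) * (mm o g - mm o f))
      (max (XX o g.1) (XX o g.2) * (mm o g - mm o f)) ↔ _
  rw [hmax]
  rcases le_total (XX o g.1 * (mm o g - mm o f)) (XX o g.2 * (mm o g - mm o f)) with h | h
  · rw [max_eq_right h]
    constructor
    · intro h'; right; exact h'
    · rintro (h' | h') <;> linarith
  · rw [max_eq_left h]
    constructor
    · intro h'; left; exact h'
    · rintro (h' | h') <;> linarith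

/-- a generic direction -/
lemma exists_generic (V : Finset E2) :
    ∃ s : ℝ, ∀ p ∈ V, ∀ q ∈ V, p ≠ q → p 1 - s * p 0 ≠ q 1 - s * q 0 := by
  obtain ⟨s, hs⟩ := Infinite.exists_notMem_finset
    ((V ×ˢ V).image (fun z : E2 × E2 => (z.1 1 - z.2 1) / (z.1 0 - z.2 0)))
  refine ⟨s, fun p hp q hq hpq heq => ?_⟩
  by_cases h0 : p 0 - q 0 = 0
  · apply hpq
    have h1 : p 1 = q 1 := by
      have : s * p 0 = s * q 0 := by
        have : p 0 = q 0 := by linarith
        rw [this]
      linarith
    ext i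
    fin_cases i
    · show p 0 = q 0
      linarith
    · exact h1
  · apply hs
    refine Finset.mem_image.2 ⟨(p, q), Finset.mem_product.2 ⟨hp, hq⟩, ?_⟩
    show (p 1 - q 1) / (p 0 - q 0) = s
    rw [div_eq_iff h0]
    linarith

/-- **Chains outside of an extreme endpoint.** -/
theorem exists_chain_top (E : Finset (E2 × E2)) (la : E2 × E2 → ℝ) (h0 : ∀ e ∈ E, 0 ≤ la e)
    (h1 : ∀ f ∈ E, ∑ e ∈ E.filter (fun e => Meets f e), la e ≤ 1) (m : ℕ)
    (hM : (m : ℝ) + 1 < ∑ e ∈ E, la e) :
    ∃ o : E2 × E2, o.1 ≠ o.2 ∧ (∃ f ∈ E, o.1 = f.1 ∨ o.1 = f.2) ∧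
      ∃ C ⊆ E, C.card = m + 1 ∧ (∀ e ∈ C, ∀ f ∈ C, e ≠ f → Indep e f) ∧
        (∀ e ∈ C, PosF o e) := by
  have hEne : E.Nonempty := by
    by_contra hcon
    rw [Finset.not_nonempty_iff_eq_empty] at hcon
    rw [hcon, Finset.sum_empty] at hM
    have : (0:ℝ) ≤ m := Nat.cast_nonneg m
    linarith
  set V : Finset E2 := E.image Prod.fst ∪ E.image Prod.snd with hV
  have hV1 : ∀ e ∈ E, e.1 ∈ V := fun e he =>
    Finset.mem_union_left _ (Finset.mem_image_of_mem _ he)
  have hV2 : ∀ e ∈ E, e.2 ∈ V := fun e he =>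
    Finset.mem_union_right _ (Finset.mem_image_of_mem _ he)
  obtain ⟨s, hs⟩ := exists_generic V
  obtain ⟨e0, he0⟩ := hEne
  obtain ⟨a, haV, hamax⟩ := V.exists_max_image (fun p => p 1 - s * p 0) ⟨e0.1, hV1 e0 he0⟩
  have hmem : ∃ f ∈ E, a = f.1 ∨ a = f.2 := by
    rcases Finset.mem_union.1 haV with h | h
    · obtain ⟨f, hf, rfl⟩ := Finset.mem_image.1 h
      exact ⟨f, hf, Or.inl rfl⟩
    · obtain ⟨f, hf, rfl⟩ := Finset.mem_image.1 h
      exact ⟨f, hf, Or.inr rfl⟩
  obtain ⟨fa, hfa, hafa⟩ := hmem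
  -- the base line
  set b : E2 := !₂[a 0 + 1, a 1 + s] with hb
  have hb0 : b 0 = a 0 + 1 := by simp [hb]
  have hb1 : b 1 = a 1 + s := by simp [hb]
  have htt : ∀ p : E2, tt (a, b) p = (a 1 - s * a 0) - (p 1 - s * p 0) := by
    intro p
    unfold tt orient
    simp only
    rw [hb0, hb1]
    ring
  set Q := E.filter (fun e => ¬ Meets fa e) with hQ
  have hQE : Q ⊆ E := Finset.filter_subset _ _
  have hQa : ∀ e ∈ Q, orient e.1 e.2 a < 0 := by
    intro e he
    have := (Finset.mem_filter.1 he).2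
    unfold Meets at this
    push Not at this
    rcases hafa with h | h
    · rw [h]; exact this.1
    · rw [h]; exact this.2
  have hlt : ∀ p ∈ V, p ≠ a → 0 < tt (a, b) p := by
    intro p hp hpa
    rw [htt]
    have h2 := hamax p hp
    have h3 := hs p hp a haV hpa
    have : p 1 - s * p 0 < a 1 - s * a 0 := lt_of_le_of_ne h2 h3
    linarith
  have hpos : ∀ e ∈ Q, PosF (a, b) e := by
    intro e he
    have h2 := hQa e he
    refine ⟨hlt _ (hV1 e (hQE he)) ?_, hlt _ (hV2 e (hQE he)) ?_, ?_⟩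
    · intro h3
      rw [← h3, orient_self_left] at h2
      exact lt_irrefl _ h2
    · intro h3
      rw [← h3, orient_self_right] at h2
      exact lt_irrefl _ h2
    · unfold gam
      simp only
      linarith
  have hmass : (m : ℝ) < ∑ e ∈ Q, la e := by
    have h2 := Finset.sum_filter_add_sum_filter_not E (fun e => Meets fa e) la
    have h3 := h1 fa hfa
    linarith
  obtain ⟨C, hCQ, hCc, hCi, -⟩ := (flags (a, b)).exists_indep_w la m Q
    (fun i hi => h0 i (hQE hi)) (by
      intro i hi S hS hm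
      refine le_trans ?_ (h1 i (hQE hi))
      apply Finset.sum_le_sum_of_subset_of_nonneg
      · intro j hj
        exact Finset.mem_filter.2 ⟨hQE (hS hj),
          (flags_meets' (hpos j (hS hj)) (hpos i hi)).1 (hm j hj)⟩
      · intro j hj _
        exact h0 j (Finset.mem_filter.1 hj).1) hmass
  refine ⟨(a, b), ?_, ⟨fa, hfa, hafa⟩, C, hCQ.trans hQE, hCc, ?_, fun e he => hpos e (hCQ he)⟩
  · intro h
    have h2 : a 0 = b 0 := by
      have : a = b := h
      rw [← this]
    rw [hb0] at h2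
    linarith
  · intro e he f hf hef
    obtain ⟨h3, h4⟩ := hCi e he f hf hef
    have p1 := hpos e (hCQ he)
    have p2 := hpos f (hCQ hf)
    constructor
    · intro h5; exact h4 ((flags_meets' p2 p1).2 h5)
    · intro h5; exact h3 ((flags_meets' p1 p2).2 h5)

end Pool.Agent.Lib.Pec6744
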