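import Pool.Agent.Lib.P28F.LPmax

/-!
# A self-dual critical subset of a weighted relation

If a reflexive relation `R` on a finite set `E` has a weight `w` with `w {f : R f e} ≤ 1` for all
`e` and total weight more than `M`, then some subset `E'` has a weight `la` with
`la {e ∈ E' : R f e} ≤ 1` for all `f ∈ E'` and total weight more than `M`.
-/

set_option autoImplicit false

namespace Pool.Agent.Lib.Pec6744

open Finset Classical Matrix

/-- linear programming duality for the relation `R` -/
theorem even_dual {κ : Type} [Fintype κ] (R : κ → κ → Prop) (W : ℝ) :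
    (∃ z : κ → ℝ, (∀ i, 0 ≤ z i) ∧ (∀ f, ∑ e, (if R f e then z e else 0) ≤ 1) ∧ W ≤ ∑ e, z e) ∨
    (∃ u : κ → ℝ, (∀ i, 0 ≤ u i) ∧ (∀ e, 1 ≤ ∑ f, (if R f e then u f else 0)) ∧
      ∑ f, u f < W) := by
  let A : Matrix (κ ⊕ (κ ⊕ Unit)) κ ℝ := Sum.elim (fun i j => if i = j then -1 else 0)
    (Sum.elim (fun f e => if R f e then 1 else 0) (fun _ _ => -1))
  let b : κ ⊕ (κ ⊕ Unit) → ℝ := Sum.elim (fun _ => 0) (Sum.elim (fun _ => 1) (fun _ => -W))
  by_cases h : ∃ z : κ → ℝ, A *ᵥ z ≤ b
  · left
    obtain ⟨z, hz⟩ := h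
    refine ⟨z, fun i => ?_, fun f => ?_, ?_⟩
    · have h1 := hz (Sum.inl i)
      have h2 : (A *ᵥ z) (Sum.inl i) = - z i := by
        show ∑ j, (if i = j then (-1 : ℝ) else 0) * z j = - z i
        simp
      rw [h2] at h1
      have h3 : b (Sum.inl i) = 0 := rfl
      linarith
    · have h1 := hz (Sum.inr (Sum.inl f))
      have h2 : (A *ᵥ z) (Sum.inr (Sum.inl f)) = ∑ e, (if R f e then z e else 0) := by
        show ∑ e, (if R f e then (1 : ℝ) else 0) * z e = _
        refine Finset.sum_congr rfl fun e _ => ?_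
        split_ifs <;> simp
      rw [h2] at h1
      exact h1
    · have h1 := hz (Sum.inr (Sum.inr ()))
      have h2 : (A *ᵥ z) (Sum.inr (Sum.inr ())) = - ∑ e, z e := by
        show ∑ e, (-1 : ℝ) * z e = _
        rw [← Finset.mul_sum]; ring
      rw [h2] at h1
      have h3 : b (Sum.inr (Sum.inr ())) = -W := rfl
      linarith
  · right
    obtain ⟨y, hy0, hy1, hy2⟩ := Pool.Agent.Lib.P28F.LPmaxAux.farkas' A b h
    have hA : ∀ e, - y (Sum.inl e) + ∑ f, (if R f e then y (Sum.inr (Sum.inl f)) else 0)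
        - y (Sum.inr (Sum.inr ())) = 0 := by
      intro e
      have h1 := congrFun hy1 e
      have h2 : (y ᵥ* A) e = ∑ x, y x * A x e := rfl
      rw [h2, Fintype.sum_sum_type, Fintype.sum_sum_type] at h1
      have h3 : ∑ a₁, y (Sum.inl a₁) * A (Sum.inl a₁) e = - y (Sum.inl e) := by
        show ∑ a₁, y (Sum.inl a₁) * (if a₁ = e then (-1 : ℝ) else 0) = _
        simp
      have h4 : ∑ a₁, y (Sum.inr (Sum.inl a₁)) * A (Sum.inr (Sum.inl a₁)) e
          = ∑ f, (if R f e then y (Sum.inr (Sum.inl f)) else 0) := by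
        show ∑ f, y (Sum.inr (Sum.inl f)) * (if R f e then (1 : ℝ) else 0) = _
        refine Finset.sum_congr rfl fun f _ => ?_
        split_ifs <;> simp
      have h5 : ∑ a₂ : Unit, y (Sum.inr (Sum.inr a₂)) * A (Sum.inr (Sum.inr a₂)) e
          = - y (Sum.inr (Sum.inr ())) := by
        show ∑ a₂ : Unit, y (Sum.inr (Sum.inr a₂)) * (-1 : ℝ) = _
        simp
      rw [h3, h4, h5] at h1
      have h6 : (0 : κ → ℝ) e = 0 := rfl
      linarith
    have hb : ∑ f, y (Sum.inr (Sum.inl f)) - y (Sum.inr (Sum.inr ())) * W < 0 := by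
      have h2 : y ⬝ᵥ b = ∑ x, y x * b x := rfl
      rw [h2, Fintype.sum_sum_type, Fintype.sum_sum_type] at hy2
      have h3 : ∑ a₁, y (Sum.inl a₁) * b (Sum.inl a₁) = 0 := by
        show ∑ a₁, y (Sum.inl a₁) * (0 : ℝ) = 0
        simp
      have h4 : ∑ a₁, y (Sum.inr (Sum.inl a₁)) * b (Sum.inr (Sum.inl a₁))
          = ∑ f, y (Sum.inr (Sum.inl f)) := by
        show ∑ f, y (Sum.inr (Sum.inl f)) * (1 : ℝ) = _
        simp
      have h5 : ∑ a₂ : Unit, y (Sum.inr (Sum.inr a₂)) * b (Sum.inr (Sum.inr a₂))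
          = - (y (Sum.inr (Sum.inr ())) * W) := by
        show ∑ a₂ : Unit, y (Sum.inr (Sum.inr a₂)) * (-W) = _
        simp
      rw [h3, h4, h5] at hy2
      linarith
    set c := y (Sum.inr (Sum.inr ())) with hc
    have hc0 : 0 ≤ c := hy0 _
    have hu0 : ∀ f, 0 ≤ y (Sum.inr (Sum.inl f)) := fun f => hy0 _
    have hcpos : 0 < c := by
      rcases hc0.eq_or_lt with h0 | h0
      · exfalso
        have h1 : 0 ≤ ∑ f, y (Sum.inr (Sum.inl f)) := Finset.sum_nonneg fun f _ => hu0 f
        rw [← h0] at hb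
        linarith
      · exact h0
    refine ⟨fun f => y (Sum.inr (Sum.inl f)) / c, fun i => div_nonneg (hu0 i) hc0, fun e => ?_, ?_⟩
    · have h1 : ∑ f, (if R f e then y (Sum.inr (Sum.inl f)) / c else 0)
          = (∑ f, (if R f e then y (Sum.inr (Sum.inl f)) else 0)) / c := by
        rw [Finset.sum_div]
        refine Finset.sum_congr rfl fun f _ => ?_
        split_ifs <;> simp
      rw [h1, le_div_iff₀ hcpos]
      have h2 := hA e
      have h3 : 0 ≤ y (Sum.inl e) := hy0 _
      linarith
    · rw [← Finset.sum_div, div_lt_iff₀ hcpos]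
      linarith

/-- the same for a finite subset -/
theorem even_dual' {ι : Type} (R : ι → ι → Prop) (E : Finset ι) (W : ℝ) :
    (∃ z : ι → ℝ, (∀ i ∈ E, 0 ≤ z i) ∧ (∀ f ∈ E, ∑ e ∈ E.filter (fun e => R f e), z e ≤ 1) ∧
      W ≤ ∑ e ∈ E, z e) ∨
    (∃ u : ι → ℝ, (∀ i ∈ E, 0 ≤ u i) ∧ (∀ e ∈ E, 1 ≤ ∑ f ∈ E.filter (fun f => R f e), u f) ∧
      ∑ f ∈ E, u f < W) := by
  have conv : ∀ z : E → ℝ, ∀ e : E,
      (fun i => if h : i ∈ E then z ⟨i, h⟩ else 0 : ι → ℝ) e.1 = z e := by
    intro z e
    simp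
  rcases even_dual (κ := E) (fun a b => R a.1 b.1) W with ⟨z, h1, h2, h3⟩ | ⟨u, h1, h2, h3⟩
  · left
    refine ⟨fun i => if h : i ∈ E then z ⟨i, h⟩ else 0, fun i hi => ?_, fun f hf => ?_, ?_⟩
    · show 0 ≤ (if h : i ∈ E then z ⟨i, h⟩ else 0)
      rw [dif_pos hi]
      exact h1 _
    · rw [Finset.sum_filter, ← Finset.sum_coe_sort E]
      refine le_trans (le_of_eq ?_) (h2 ⟨f, hf⟩)
      refine Finset.sum_congr rfl fun e _ => ?_
      have := conv z e
      simp only at this
      rw [this]
    · rw [← Finset.sum_coe_sort E]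
      refine le_trans h3 (le_of_eq ?_)
      refine Finset.sum_congr rfl fun e _ => ?_
      exact (conv z e).symm
  · right
    refine ⟨fun i => if h : i ∈ E then u ⟨i, h⟩ else 0, fun i hi => ?_, fun f hf => ?_, ?_⟩
    · show 0 ≤ (if h : i ∈ E then u ⟨i, h⟩ else 0)
      rw [dif_pos hi]
      exact h1 _
    · rw [Finset.sum_filter, ← Finset.sum_coe_sort E]
      refine le_trans (h2 ⟨f, hf⟩) (le_of_eq ?_)
      refine Finset.sum_congr rfl fun e _ => ?_
      have := conv u e
      simp only at this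
      rw [this]
    · rw [← Finset.sum_coe_sort E]
      refine lt_of_le_of_lt (le_of_eq ?_) h3
      refine Finset.sum_congr rfl fun e _ => ?_
      exact conv u e

/-- the critical subset -/
theorem even_crit {ι : Type} (R : ι → ι → Prop) (hR : ∀ i, R i i) (M : ℝ) :
    ∀ n : ℕ, ∀ E : Finset ι, E.card = n → ∀ w : ι → ℝ, (∀ i ∈ E, 0 ≤ w i) →
      (∀ e ∈ E, ∑ f ∈ E.filter (fun f => R f e), w f ≤ 1) → M < ∑ f ∈ E, w f →
      ∃ E' ⊆ E, ∃ la : ι → ℝ, (∀ i ∈ E', 0 ≤ la i) ∧
        (∀ f ∈ E', ∑ e ∈ E'.filter (fun e => R f e), la e ≤ 1) ∧ M < ∑ e ∈ E', la e := by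
  intro n
  induction n with
  | zero =>
    intro E hE w _ _ hM
    rw [Finset.card_eq_zero] at hE
    subst hE
    refine ⟨∅, Finset.Subset.refl _, fun _ => 0, by simp, by simp, ?_⟩
    simpa using hM
  | succ n ih =>
    intro E hE w hw0 hw1 hM
    rcases even_dual' R E (∑ f ∈ E, w f) with ⟨z, h1, h2, h3⟩ | ⟨u, h1, h2, h3⟩
    · exact ⟨E, Finset.Subset.refl _, z, h1, h2, lt_of_lt_of_le hM h3⟩
    · have hEne : E.Nonempty := by rw [← Finset.card_pos]; omega
      -- the support of `u`
      set S := E.filter (fun f => 0 < u f) with hS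
      have hSne : S.Nonempty := by
        by_contra hcon
        rw [Finset.not_nonempty_iff_eq_empty] at hcon
        obtain ⟨e, he⟩ := hEne
        have h4 := h2 e he
        have h5 : ∑ f ∈ E.filter (fun f => R f e), u f = 0 := by
          apply Finset.sum_eq_zero
          intro f hf
          have hfE := (Finset.mem_filter.1 hf).1
          rcases (h1 f hfE).eq_or_lt with h6 | h6
          · exact h6.symm
          · exfalso
            have : f ∈ S := Finset.mem_filter.2 ⟨hfE, h6⟩
            rw [hcon] at this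
            exact absurd this (Finset.notMem_empty _)
        linarith
      obtain ⟨f0, hf0, hmin⟩ := S.exists_min_image (fun f => w f / u f) hSne
      obtain ⟨hf0E, hu0⟩ := Finset.mem_filter.1 hf0
      set θ := w f0 / u f0 with hθ
      have hθ0 : 0 ≤ θ := div_nonneg (hw0 f0 hf0E) hu0.le
      have hge : ∀ f ∈ E, θ * u f ≤ w f := by
        intro f hf
        rcases (h1 f hf).eq_or_lt with h6 | h6
        · rw [← h6, mul_zero]; exact hw0 f hf
        · have := hmin f (Finset.mem_filter.2 ⟨hf, h6⟩)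
          rwa [le_div_iff₀ h6] at this
      have hθ1 : θ < 1 := by
        by_contra hcon
        have hcon := not_lt.1 hcon
        have hge' : ∀ f ∈ E, 0 ≤ w f - u f := by
          intro f hf
          have h6 := hge f hf
          have h7 := mul_le_mul_of_nonneg_right hcon (h1 f hf)
          linarith
        have heq : ∀ e ∈ E, w e ≤ u e := by
          intro e he
          have h6 : ∑ f ∈ E.filter (fun f => R f e), (w f - u f) ≤ 0 := by
            rw [Finset.sum_sub_distrib]
            have h7 := hw1 e he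
            have h8 := h2 e he
            linarith
          have h9 : w e - u e ≤ ∑ f ∈ E.filter (fun f => R f e), (w f - u f) :=
            Finset.single_le_sum (f := fun f => w f - u f)
              (fun f hf => hge' f (Finset.mem_filter.1 hf).1)
              (Finset.mem_filter.2 ⟨he, hR e⟩)
          linarith
        have := Finset.sum_le_sum heq
        linarith
      have h1θ : 0 < 1 - θ := by linarith
      set w' : ι → ℝ := fun f => (w f - θ * u f) / (1 - θ) with hw'
      have hsum : ∀ S : Finset ι, ∑ f ∈ S, w' f = (∑ f ∈ S, w f - θ * ∑ f ∈ S, u f) / (1 - θ) := by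
        intro S
        rw [hw', ← Finset.sum_div, Finset.sum_sub_distrib, Finset.mul_sum]
      have hw'0 : ∀ f ∈ E, 0 ≤ w' f := fun f hf =>
        div_nonneg (by linarith [hge f hf]) h1θ.le
      have hw'f0 : w' f0 = 0 := by
        have : θ * u f0 = w f0 := by rw [hθ]; field_simp
        show (w f0 - θ * u f0) / (1 - θ) = 0
        rw [this, sub_self, zero_div]
      have hE1 : (E.erase f0).card = n := by
        rw [Finset.card_erase_of_mem hf0E, hE]; rfl
      obtain ⟨E', hE', la, a1, a2, a3⟩ := ih (E.erase f0) hE1 w'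
        (fun f hf => hw'0 f (Finset.mem_of_mem_erase hf)) (by
          intro e he
          have heE := Finset.mem_of_mem_erase he
          have h6 : ∑ f ∈ (E.erase f0).filter (fun f => R f e), w' f
              ≤ ∑ f ∈ E.filter (fun f => R f e), w' f := by
            apply Finset.sum_le_sum_of_subset_of_nonneg
            · exact Finset.filter_subset_filter _ (Finset.erase_subset _ _)
            · intro f hf _
              exact hw'0 f (Finset.mem_filter.1 hf).1
          refine h6.trans ?_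
          rw [hsum, div_le_one h1θ]
          have h7 := hw1 e heE
          have h8 := mul_le_mul_of_nonneg_left (h2 e heE) hθ0
          linarith) (by
          have h6 : ∑ f ∈ E.erase f0, w' f = ∑ f ∈ E, w' f := by
            rw [← Finset.add_sum_erase E w' hf0E, hw'f0, zero_add]
          rw [h6, hsum, lt_div_iff₀ h1θ]
          have h7 : θ * ∑ f ∈ E, u f ≤ θ * ∑ f ∈ E, w f := mul_le_mul_of_nonneg_left h3.le hθ0
          have h8 : M * (1 - θ) < (∑ f ∈ E, w f) * (1 - θ) := mul_lt_mul_of_pos_right hM h1θ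
          linarith)
      exact ⟨E', hE'.trans (Finset.erase_subset _ _), la, a1, a2, a3⟩

end Pool.Agent.Lib.Pec6744
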