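import Mathlib

/-!
# Flags (a line with two points on it), the order on independent flags, absorbers, long chains
-/

namespace Pool.Agent.Lib.Pec6744

variable {ι : Type*} [DecidableEq ι]

/-- Data of a family of flags in graph form: flag `i` is the line `Y = m i * X + c i` together with
the two points of it with abscissas `xa i ≤ xb i`. -/
structure Flags (ι : Type*) where
  m : ι → ℝ
  c : ι → ℝ
  xa : ι → ℝ
  xb : ι → ℝ
  hx : ∀ i, xa i ≤ xb i

/-- `f i t` is the maximum over the two points `(X, Y)` of flag `i` of `Y - t * X`. -/
noncomputable def Flags.f (F : Flags ι) (i : ι) (t : ℝ) : ℝ :=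
  F.c i + max (F.xa i * (F.m i - t)) (F.xb i * (F.m i - t))

/-- flag `j` meets the closed region above the line of flag `i`. -/
def Flags.Meets (F : Flags ι) (j i : ι) : Prop := F.c i ≤ F.f j (F.m i)

/-- the two flags are independent: each one lies strictly below the line of the other one. -/
def Flags.Indep (F : Flags ι) (i j : ι) : Prop := ¬ F.Meets j i ∧ ¬ F.Meets i j

lemma Flags.f_of_le (F : Flags ι) {i : ι} {t : ℝ} (h : F.m i ≤ t) :
    F.f i t = F.c i + F.xa i * (F.m i - t) := by
  unfold Flags.f
  rw [max_eq_left]
  have := F.hx i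
  nlinarith

lemma Flags.f_of_ge (F : Flags ι) {i : ι} {t : ℝ} (h : t ≤ F.m i) :
    F.f i t = F.c i + F.xb i * (F.m i - t) := by
  unfold Flags.f
  rw [max_eq_right]
  have := F.hx i
  nlinarith

lemma Flags.meets_self (F : Flags ι) (i : ι) : F.Meets i i := by
  unfold Flags.Meets
  rw [F.f_of_le le_rfl]; simp

/-- the absorber lemma -/
theorem Flags.exists_absorber (F : Flags ι) :
    ∀ n : ℕ, ∀ A : Finset ι, A.card = n → A.Nonempty → (∀ i ∈ A, ∀ j ∈ A, ¬ F.Indep i j) →
      ∃ i ∈ A, ∀ j ∈ A, F.Meets j i := by
  intro n
  induction n using Nat.strong_induction_on with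
  | _ n ih =>
    intro A hcard hne hA
    obtain ⟨z, hz, hzmin⟩ := A.exists_min_image F.m hne
    by_cases hA1 : (A.erase z).Nonempty
    · have hlt : (A.erase z).card < n := by
        rw [← hcard]; exact Finset.card_erase_lt_of_mem hz
      obtain ⟨a, ha, habs⟩ := ih _ hlt (A.erase z) rfl hA1
        (fun i hi j hj => hA i (Finset.mem_of_mem_erase hi) j (Finset.mem_of_mem_erase hj))
      have haA : a ∈ A := Finset.mem_of_mem_erase ha
      by_cases hza : F.Meets z a
      · refine ⟨a, haA, fun j hj => ?_⟩
        by_cases hjz : j = z
        · subst hjz; exact hza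
        · exact habs j (Finset.mem_erase.2 ⟨hjz, hj⟩)
      · -- `z` is strictly below the line of `a`
        have hzle := hzmin a haA
        have hza' : F.c z + F.xa z * (F.m z - F.m a) < F.c a := by
          have := hza
          unfold Flags.Meets at this
          rw [F.f_of_le hzle] at this
          linarith
        rcases eq_or_lt_of_le hzle with heq | hlt'
        · refine ⟨z, hz, fun j hj => ?_⟩
          by_cases hjz : j = z
          · subst hjz; exact F.meets_self _
          · have := habs j (Finset.mem_erase.2 ⟨hjz, hj⟩)
            unfold Flags.Meets at this ⊢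
            rw [heq]
            rw [heq] at hza'
            simp at hza'
            linarith
        · -- the subfamily with smaller slopes
          set A' := A.filter (fun k => F.m k < F.m a) with hA'
          have hzA' : z ∈ A' := Finset.mem_filter.2 ⟨hz, hlt'⟩
          have hlt2 : A'.card < n := by
            rw [← hcard]
            apply Finset.card_lt_card
            refine ⟨Finset.filter_subset _ _, fun h => ?_⟩
            have := (Finset.mem_filter.1 (h haA)).2
            exact lt_irrefl _ this
          obtain ⟨b, hb, hbabs⟩ := ih _ hlt2 A' rfl ⟨z, hzA'⟩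
            (fun i hi j hj => hA i (Finset.mem_filter.1 hi).1 j (Finset.mem_filter.1 hj).1)
          have hbA : b ∈ A := (Finset.mem_filter.1 hb).1
          have hbm : F.m b < F.m a := (Finset.mem_filter.1 hb).2
          have hzb : F.m z ≤ F.m b := hzmin b hbA
          refine ⟨b, hbA, fun i hi => ?_⟩
          by_cases hiA' : i ∈ A'
          · exact hbabs i hiA'
          · have him : F.m a ≤ F.m i := by
              by_contra hcon
              exact hiA' (Finset.mem_filter.2 ⟨hi, not_le.1 hcon⟩)
            by_contra hnot
            have h1 : F.c i + F.xb i * (F.m i - F.m b) < F.c b := by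
              unfold Flags.Meets at hnot
              rw [F.f_of_ge (by linarith)] at hnot
              linarith
            have h2 : F.c b ≤ F.c z + F.xa z * (F.m z - F.m b) := by
              have := hbabs z hzA'
              unfold Flags.Meets at this
              rwa [F.f_of_le hzb] at this
            have hiz : i ≠ z := by
              rintro rfl
              linarith
            have h3 : F.c a ≤ F.c i + F.xb i * (F.m i - F.m a) := by
              have := habs i (Finset.mem_erase.2 ⟨hiz, hi⟩)
              unfold Flags.Meets at this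
              rwa [F.f_of_ge him] at this
            -- slopes: `xb i < xa z`
            have h4 : F.xb i < F.xa z := by
              by_contra hcon
              have hcon := not_lt.1 hcon
              nlinarith
            apply hA z hz i hi
            constructor
            · unfold Flags.Meets
              rw [F.f_of_ge (by linarith)]
              nlinarith
            · unfold Flags.Meets
              rw [F.f_of_le (by linarith)]
              nlinarith
    · have : A = {z} := by
        rw [Finset.not_nonempty_iff_eq_empty] at hA1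
        apply Finset.eq_singleton_iff_unique_mem.2
        refine ⟨hz, fun x hx => ?_⟩
        by_contra hxz
        have : x ∈ A.erase z := Finset.mem_erase.2 ⟨hxz, hx⟩
        rw [hA1] at this
        exact absurd this (Finset.notMem_empty _)
      refine ⟨z, hz, fun j hj => ?_⟩
      rw [this, Finset.mem_singleton] at hj
      subst hj
      exact F.meets_self _

/-- the order on flags -/
def Flags.Lt (F : Flags ι) (i j : ι) : Prop := F.m j < F.m i ∧ F.Indep i j

lemma Flags.Indep.symm {F : Flags ι} {i j : ι} (h : F.Indep i j) : F.Indep j i := ⟨h.2, h.1⟩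

lemma Flags.indep_iff (F : Flags ι) {i j : ι} : F.Indep i j ↔ F.Lt i j ∨ F.Lt j i := by
  constructor
  · intro h
    rcases lt_trichotomy (F.m i) (F.m j) with h1 | h1 | h1
    · right; exact ⟨h1, h.symm⟩
    · exfalso
      obtain ⟨h2, h3⟩ := h
      unfold Flags.Meets at h2 h3
      rw [F.f_of_le h1.ge] at h2
      rw [F.f_of_le h1.le] at h3
      rw [h1] at h2 h3
      simp at h2 h3
      linarith
    · left; exact ⟨h1, h⟩
  · rintro (h | h)
    · exact h.2
    · exact h.2.symm

lemma Flags.Lt.irrefl (F : Flags ι) (i : ι) : ¬ F.Lt i i := fun h => lt_irrefl _ h.1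

lemma Flags.Lt.trans {F : Flags ι} {i j k : ι} (h1 : F.Lt i j) (h2 : F.Lt j k) : F.Lt i k := by
  obtain ⟨m1, a1, b1⟩ := h1
  obtain ⟨m2, a2, b2⟩ := h2
  unfold Flags.Meets at a1 b1 a2 b2
  rw [F.f_of_le m1.le] at a1
  rw [F.f_of_ge m1.le] at b1
  rw [F.f_of_le m2.le] at a2
  rw [F.f_of_ge m2.le] at b2
  refine ⟨m2.trans m1, ?_, ?_⟩
  · unfold Flags.Meets
    rw [F.f_of_le (m2.trans m1).le]
    have hxj := F.hx j
    have : F.xa j < F.xa k := by
      by_contra hcon
      have hcon := not_lt.1 hcon
      nlinarith
    nlinarith
  · unfold Flags.Meets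
    rw [F.f_of_ge (m2.trans m1).le]
    have hxj := F.hx j
    have : F.xb i < F.xb j := by
      by_contra hcon
      have hcon := not_lt.1 hcon
      nlinarith
    nlinarith

/-- Mirsky-type bound: long independent families. -/
theorem Flags.exists_indep (F : Flags ι) (a : ℕ) :
    ∀ h : ℕ, ∀ I : Finset ι, (∀ i ∈ I, ∀ S : Finset ι, S ⊆ I → (∀ j ∈ S, F.Meets j i) → S.card ≤ a) →
      a * h < I.card →
      ∃ C : Finset ι, C ⊆ I ∧ C.card = h + 1 ∧ (∀ i ∈ C, ∀ j ∈ C, i ≠ j → F.Indep i j) ∧
        ∃ b ∈ C, ∀ j ∈ C, j ≠ b → F.Lt b j := by
  intro h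
  induction h with
  | zero =>
    intro I _ hI
    have : I.Nonempty := by
      rw [← Finset.card_pos]; omega
    obtain ⟨b, hb⟩ := this
    refine ⟨{b}, by simpa using hb, by simp, ?_, b, by simp, ?_⟩
    · intro i hi j hj hij
      rw [Finset.mem_singleton] at hi hj
      exact absurd (hi.trans hj.symm) hij
    · intro j hj hjb
      rw [Finset.mem_singleton] at hj
      exact absurd hj hjb
  | succ h ih =>
    intro I hI hcard
    classical
    set A := I.filter (fun i => ∀ j ∈ I, ¬ F.Lt j i) with hA
    have hAcard : A.card ≤ a := by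
      rcases A.eq_empty_or_nonempty with h0 | h0
      · rw [h0]; simp
      · obtain ⟨i, hi, habs⟩ := F.exists_absorber _ A rfl h0 (by
          intro i hi j hj hind
          rcases F.indep_iff.1 hind with h1 | h1
          · exact (Finset.mem_filter.1 hj).2 i (Finset.mem_filter.1 hi).1 h1
          · exact (Finset.mem_filter.1 hi).2 j (Finset.mem_filter.1 hj).1 h1)
        exact hI i (Finset.mem_filter.1 hi).1 A (Finset.filter_subset _ _) habs
    have hsub : I \ A ⊆ I := Finset.sdiff_subset
    have hc2 : a * h < (I \ A).card := by
      have := Finset.card_sdiff_add_card_eq_card (Finset.filter_subset (fun i => ∀ j ∈ I, ¬ F.Lt j i) I)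
      rw [← hA] at this
      rw [Nat.mul_succ] at hcard
      omega
    obtain ⟨C, hC, hCc, hCi, b, hb, hbl⟩ := ih (I \ A)
      (fun i hi S hS hm => hI i (hsub hi) S (hS.trans hsub) hm) hc2
    have hbI : b ∈ I := hsub (hC hb)
    have hbA : b ∉ A := (Finset.mem_sdiff.1 (hC hb)).2
    have : ∃ b' ∈ I, F.Lt b' b := by
      by_contra hcon
      push Not at hcon
      exact hbA (Finset.mem_filter.2 ⟨hbI, hcon⟩)
    obtain ⟨b', hb'I, hb'⟩ := this
    have hlt : ∀ j ∈ C, F.Lt b' j := by
      intro j hj
      by_cases hjb : j = b
      · subst hjb; exact hb'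
      · exact hb'.trans (hbl j hj hjb)
    have hb'C : b' ∉ C := fun hmem => Flags.Lt.irrefl F b' (hlt b' hmem)
    refine ⟨insert b' C, ?_, ?_, ?_, b', Finset.mem_insert_self _ _, ?_⟩
    · exact Finset.insert_subset hb'I (hC.trans hsub)
    · rw [Finset.card_insert_of_notMem hb'C, hCc]
    · intro i hi j hj hij
      rw [Finset.mem_insert] at hi hj
      rcases hi with rfl | hi <;> rcases hj with rfl | hj
      · exact absurd rfl hij
      · exact (hlt j hj).2
      · exact (hlt i hi).2.symm
      · exact hCi i hi j hj hij
    · intro j hj hjb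
      rw [Finset.mem_insert] at hj
      rcases hj with rfl | hj
      · exact absurd rfl hjb
      · exact hlt j hj

end Pool.Agent.Lib.Pec6744
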